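import Pool.Agent.Lib.MP_eee601_co.Ins.Main

set_option autoImplicit false

namespace Pool.Agent.EeIns

open Finset

/-- Hamiltonian path plus a matching on the first `32 s` vertices: the point `a < s` is the
interval `32 a, ..., 32 a + 31`, and `32 a + 2 l` is joined to `32 (π l a) + 2 l + 1`. -/
def cub (n s : ℕ) (π : Fin 16 → Equiv.Perm (Fin s)) : SimpleGraph (Fin n) :=
  SimpleGraph.fromRel (fun u v => u.val + 1 = v.val ∨
    ∃ (l : Fin 16) (a : Fin s), u.val = 32 * a.val + 2 * l.val ∧
      v.val = 32 * (π l a).val + (2 * l.val + 1))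

lemma cub_connected (n s : ℕ) (hn : 0 < n) (π : Fin 16 → Equiv.Perm (Fin s)) :
    (cub n s π).Connected := by
  obtain ⟨m, rfl⟩ : ∃ m, n = m + 1 := ⟨n - 1, by omega⟩
  refine (SimpleGraph.pathGraph_connected m).mono ?_
  intro u v huv
  rw [SimpleGraph.pathGraph_adj] at huv
  rw [cub, SimpleGraph.fromRel_adj]
  refine ⟨?_, ?_⟩
  · rintro rfl
    omega
  · rcases huv with h | h
    · left; left; exact h
    · right; left; exact h

open Classical in
/-- the partner of a vertex in the matching -/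
noncomputable def partner (s : ℕ) (π : Fin 16 → Equiv.Perm (Fin s)) (u : ℕ) : ℕ :=
  if h : u / 32 < s then
    if u % 2 = 0 then
      32 * (π ⟨u % 32 / 2, by omega⟩ ⟨u / 32, h⟩).val + (2 * (u % 32 / 2) + 1)
    else
      32 * ((π ⟨u % 32 / 2, by omega⟩).symm ⟨u / 32, h⟩).val + 2 * (u % 32 / 2)
  else u

lemma partner_even (s : ℕ) (π : Fin 16 → Equiv.Perm (Fin s)) (l : Fin 16) (a : Fin s) :
    partner s π (32 * a.val + 2 * l.val) = 32 * (π l a).val + (2 * l.val + 1) := by
  have hl := l.isLt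
  have ha := a.isLt
  have e1 : (32 * a.val + 2 * l.val) / 32 = a.val := by omega
  have e2 : (32 * a.val + 2 * l.val) % 2 = 0 := by omega
  have e3 : (32 * a.val + 2 * l.val) % 32 / 2 = l.val := by omega
  have e4 : (⟨(32 * a.val + 2 * l.val) % 32 / 2, by omega⟩ : Fin 16) = l := Fin.ext e3
  have e5 : ∀ h : (32 * a.val + 2 * l.val) / 32 < s,
      (⟨(32 * a.val + 2 * l.val) / 32, h⟩ : Fin s) = a := fun h => Fin.ext e1
  unfold partner
  rw [dif_pos (by omega : (32 * a.val + 2 * l.val) / 32 < s), if_pos e2, e4, e5, e3]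

lemma partner_odd (s : ℕ) (π : Fin 16 → Equiv.Perm (Fin s)) (l : Fin 16) (b : Fin s) :
    partner s π (32 * b.val + (2 * l.val + 1)) = 32 * ((π l).symm b).val + 2 * l.val := by
  have hl := l.isLt
  have ha := b.isLt
  have e1 : (32 * b.val + (2 * l.val + 1)) / 32 = b.val := by omega
  have e2 : ¬ (32 * b.val + (2 * l.val + 1)) % 2 = 0 := by omega
  have e3 : (32 * b.val + (2 * l.val + 1)) % 32 / 2 = l.val := by omega
  have e4 : (⟨(32 * b.val + (2 * l.val + 1)) % 32 / 2, by omega⟩ : Fin 16) = l := Fin.ext e3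
  have e5 : ∀ h : (32 * b.val + (2 * l.val + 1)) / 32 < s,
      (⟨(32 * b.val + (2 * l.val + 1)) / 32, h⟩ : Fin s) = b := fun h => Fin.ext e1
  unfold partner
  rw [dif_pos (by omega : (32 * b.val + (2 * l.val + 1)) / 32 < s), if_neg e2, e4, e5, e3]

lemma cub_degree (n s : ℕ) (π : Fin 16 → Equiv.Perm (Fin s)) (u : Fin n) :
    ((cub n s π).neighborSet u).ncard ≤ 3 := by
  classical
  rw [← Set.ncard_image_of_injective _ (Fin.val_injective (n := n))]
  have hsub : (Fin.val '' ((cub n s π).neighborSet u)) ⊆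
      (({u.val + 1, u.val - 1, partner s π u.val} : Finset ℕ) : Set ℕ) := by
    rintro x ⟨v, hv, rfl⟩
    rw [SimpleGraph.mem_neighborSet, cub, SimpleGraph.fromRel_adj] at hv
    simp only [coe_insert, coe_singleton, Set.mem_insert_iff, Set.mem_singleton_iff]
    obtain ⟨_, (h | ⟨l, a, h1, h2⟩) | (h | ⟨l, a, h1, h2⟩)⟩ := hv
    · left; omega
    · right; right
      rw [h1, partner_even, h2]
    · right; left; omega
    · right; right
      rw [h2, partner_odd, Equiv.symm_apply_apply, h1]
  refine (Set.ncard_le_ncard hsub (Finset.finite_toSet _)).trans ?_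
  rw [Set.ncard_coe_finset]
  exact Finset.card_le_three

lemma cub_bandwidth (n s : ℕ) (hs : 0 < s) (π : Fin 16 → Equiv.Perm (Fin s)) (u v : Fin n)
    (h : (cub n s π).Adj u v) : |((u : ℕ) : ℝ) - ((v : ℕ) : ℝ)| ≤ 32 * s := by
  rw [cub, SimpleGraph.fromRel_adj] at h
  have key : ∀ a b : Fin n, (a.val + 1 = b.val ∨ ∃ (l : Fin 16) (c : Fin s),
      a.val = 32 * c.val + 2 * l.val ∧ b.val = 32 * (π l c).val + (2 * l.val + 1)) →
      |((a : ℕ) : ℝ) - ((b : ℕ) : ℝ)| ≤ 32 * s := by
    intro a b hab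
    have hs1 : (1:ℝ) ≤ s := by exact_mod_cast hs
    rcases hab with h | ⟨l, c, h1, h2⟩
    · rw [← h]
      push_cast
      rw [abs_le]; constructor <;> linarith
    · have hl := l.isLt
      have hc := c.isLt
      have hc' := (π l c).isLt
      have ha' : ((a:ℕ):ℝ) ≤ 32 * s := by
        have : a.val ≤ 32 * s := by omega
        exact_mod_cast this
      have hb' : ((b:ℕ):ℝ) ≤ 32 * s := by
        have : b.val ≤ 32 * s := by omega
        exact_mod_cast this
      have ha0 : (0:ℝ) ≤ ((a:ℕ):ℝ) := by positivity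
      have hb0 : (0:ℝ) ≤ ((b:ℕ):ℝ) := by positivity
      rw [abs_le]; constructor <;> linarith
  obtain ⟨_, h | h⟩ := h
  · exact key u v h
  · rw [abs_sub_comm]; exact key v u h

/-- a red copy gives an admissible map -/
lemma adm_of_copy {V : Type} (F : SimpleGraph V) (n s m : ℕ) (hsn : 32 * s ≤ n)
    (π : Fin 16 → Equiv.Perm (Fin s)) (e : Fin n → V × Fin m) (he : Function.Injective e)
    (hadj : ∀ u v : Fin n, (cub n s π).Adj u v → near F (e u).1 (e v).1) (v0 : V) :
    ∃ φ : Fin s → ℕ → V, Adm F s m π φ := by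
  classical
  have hlt : ∀ (a : Fin s) (i : ℕ), i ≤ 31 → 32 * a.val + i < n := by
    intro a i hi
    have := a.isLt
    omega
  let φ : Fin s → ℕ → V := fun a i => if h : 32 * a.val + i < n then (e ⟨32 * a.val + i, h⟩).1 else v0
  have hφ : ∀ (a : Fin s) (i : ℕ) (hi : i ≤ 31), φ a i = (e ⟨32 * a.val + i, hlt a i hi⟩).1 := by
    intro a i hi
    exact dif_pos (hlt a i hi)
  refine ⟨φ, ?_, ?_, ?_, ?_⟩
  · intro a i hi
    rw [hφ a i (by omega), hφ a (i + 1) (by omega)]
    apply hadj
    rw [cub, SimpleGraph.fromRel_adj]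
    refine ⟨?_, Or.inl (Or.inl ?_)⟩
    · intro hc
      have := congrArg Fin.val hc
      simp at this
    · simp only
      omega
  · intro a b hab
    rw [hφ a 31 (by omega), hφ b 0 (by omega)]
    apply hadj
    rw [cub, SimpleGraph.fromRel_adj]
    refine ⟨?_, Or.inl (Or.inl ?_)⟩
    · intro hc
      have := congrArg Fin.val hc
      simp only at this
      omega
    · simp only
      omega
  · intro l a
    have hl := l.isLt
    rw [hφ a (2 * l.val) (by omega), hφ (π l a) (2 * l.val + 1) (by omega)]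
    apply hadj
    rw [cub, SimpleGraph.fromRel_adj]
    refine ⟨?_, Or.inl (Or.inr ⟨l, a, rfl, rfl⟩)⟩
    intro hc
    have := congrArg Fin.val hc
    simp only at this
    omega
  · intro T hT
    have : T.card ≤ (univ : Finset (Fin m)).card := by
      refine card_le_card_of_injOn
        (fun p => (e ⟨32 * p.1.val + p.2.val, hlt p.1 p.2.val (by omega)⟩).2)
        (fun _ _ => mem_coe.2 (mem_univ _)) ?_
      intro p hp q hq hpq
      have h1 := hT p hp q hq
      rw [hφ p.1 p.2.val (by omega), hφ q.1 q.2.val (by omega)] at h1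
      have h2 := he (Prod.ext h1 hpq)
      have h3 := congrArg Fin.val h2
      simp only at h3
      have hp2 := p.2.isLt
      have hq2 := q.2.isLt
      refine Prod.ext (Fin.ext (by omega)) (Fin.ext (by omega))
    rwa [card_univ, Fintype.card_fin] at this

end Pool.Agent.EeIns
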