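import Mathlib

set_option autoImplicit false

namespace Pool.Agent.EeIns

open Finset

/-- equal or adjacent -/
def near {V : Type} (F : SimpleGraph V) (x y : V) : Prop := x = y ∨ F.Adj x y

lemma near_refl {V : Type} (F : SimpleGraph V) (x : V) : near F x x := Or.inl rfl

lemma near_symm {V : Type} {F : SimpleGraph V} {x y : V} (h : near F x y) : near F y x := by
  rcases h with h | h
  · exact Or.inl h.symm
  · exact Or.inr h.symm

open Classical in
/-- the closed neighbourhood -/
noncomputable def nb {V : Type} [Fintype V] (F : SimpleGraph V) (x : V) : Finset V :=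
  univ.filter (fun z => near F x z)

lemma mem_nb {V : Type} [Fintype V] {F : SimpleGraph V} {x z : V} : z ∈ nb F x ↔ near F x z := by
  simp [nb]

open Classical in
/-- twice the number of edges inside `U` -/
noncomputable def deg2 {V : Type} (F : SimpleGraph V) (U : Finset V) : ℕ :=
  ((U ×ˢ U).filter (fun p => F.Adj p.1 p.2)).card

/-- no nonempty set of at most `M` vertices spans as many edges as it has vertices -/
def Sparse {V : Type} (F : SimpleGraph V) (M : ℕ) : Prop :=
  ∀ U : Finset V, U.Nonempty → U.card ≤ M → deg2 F U < 2 * U.card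

open Classical in
/-- ball of radius `k` -/
noncomputable def ball {V : Type} [Fintype V] (F : SimpleGraph V) (x : V) : ℕ → Finset V
  | 0 => {x}
  | k + 1 => (ball F x k).biUnion (nb F)

lemma mem_ball_zero {V : Type} [Fintype V] {F : SimpleGraph V} {x y : V} :
    y ∈ ball F x 0 ↔ y = x := by
  simp [ball]

lemma ball_step {V : Type} [Fintype V] {F : SimpleGraph V} {x y z : V} {k : ℕ}
    (h : y ∈ ball F x k) (hyz : near F y z) : z ∈ ball F x (k + 1) := by
  classical
  simp only [ball, mem_biUnion]
  exact ⟨y, h, mem_nb.2 hyz⟩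

lemma ball_succ {V : Type} [Fintype V] {F : SimpleGraph V} {x z : V} {k : ℕ}
    (h : z ∈ ball F x (k + 1)) : ∃ y ∈ ball F x k, near F y z := by
  classical
  simp only [ball, mem_biUnion] at h
  obtain ⟨y, h1, h2⟩ := h
  exact ⟨y, h1, mem_nb.1 h2⟩

lemma ball_mono {V : Type} [Fintype V] {F : SimpleGraph V} {x : V} {k l : ℕ} (h : k ≤ l) :
    ball F x k ⊆ ball F x l := by
  induction h with
  | refl => exact Subset.refl _
  | step h ih => exact fun y hy => ball_step (ih hy) (near_refl F y)

/-- a chain of near-steps -/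
lemma ball_chain {V : Type} [Fintype V] {F : SimpleGraph V} {x : V} {k : ℕ} (n : ℕ) (c : ℕ → V)
    (h0 : c 0 ∈ ball F x k) (hc : ∀ i < n, near F (c i) (c (i + 1))) : c n ∈ ball F x (k + n) := by
  induction n with
  | zero => exact h0
  | succ n ih => exact ball_step (ih fun i hi => hc i (by omega)) (hc n (by omega))

lemma card_ball {V : Type} [Fintype V] {F : SimpleGraph V} {B : ℕ} (hB : ∀ x, (nb F x).card ≤ B)
    (x : V) (k : ℕ) : (ball F x k).card ≤ B ^ k := by
  classical
  induction k with
  | zero => simp [ball]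
  | succ k ih =>
    simp only [ball]
    refine card_biUnion_le.trans ((sum_le_sum fun y _ => hB y).trans ?_)
    rw [sum_const, smul_eq_mul, pow_succ]
    exact Nat.mul_le_mul_right _ ih

/-- the permutations expand -/
def Expanding {s : ℕ} (π : Fin 16 → Equiv.Perm (Fin s)) : Prop :=
  ∀ S : Finset (Fin s), S.Nonempty → 2 * S.card ≤ s →
    S.card < 16 * ((univ.biUnion (fun l => S.image (π l))) \ S).card

/-- the map `f` is a walk with steps in balls of radius 62, it has small fibres and it is moved by
at most 62 by every permutation -/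
def Wild {V : Type} [Fintype V] (F : SimpleGraph V) (s w : ℕ) (π : Fin 16 → Equiv.Perm (Fin s))
    (f : Fin s → V) : Prop :=
  (∀ a b : Fin s, b.val = a.val + 1 → f b ∈ ball F (f a) 62) ∧
  (∀ T : Finset (Fin s), (∀ a ∈ T, ∀ b ∈ T, f a = f b) → T.card ≤ w) ∧
  (∀ l a, f (π l a) ∈ ball F (f a) 62)

end Pool.Agent.EeIns
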