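import Pool.Agent.Lib.MP_eee601_co.Ins.Sep

set_option autoImplicit false

namespace Pool.Agent.EeIns

open Finset

attribute [local irreducible] ball

section Moves

variable {V : Type} [Fintype V] {F : SimpleGraph V} {s : ℕ}
  {π : Fin 16 → Equiv.Perm (Fin s)} {φ : Fin s → ℕ → V}

lemma up_ball (h1 : ∀ a, ∀ i < 31, near F (φ a i) (φ a (i + 1))) {x : V} {k : ℕ} (a : Fin s)
    (i : ℕ) (hi : i ≤ 31) (h : φ a 0 ∈ ball F x k) : φ a i ∈ ball F x (k + i) :=
  ball_chain i (φ a) h (fun j hj => h1 a j (by omega))

lemma down_ball (h1 : ∀ a, ∀ i < 31, near F (φ a i) (φ a (i + 1))) {x : V} {k : ℕ} (a : Fin s)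
    (i : ℕ) (hi : i ≤ 31) (h : φ a i ∈ ball F x k) : φ a 0 ∈ ball F x (k + i) := by
  have := ball_chain (F := F) (x := x) (k := k) i (fun j => φ a (i - j)) (by simpa using h)
    (fun j hj => by
      have h2 := h1 a (i - (j + 1)) (by omega)
      have h3 : i - (j + 1) + 1 = i - j := by omega
      rw [h3] at h2
      exact near_symm h2)
  simpa using this

lemma move (h1 : ∀ a, ∀ i < 31, near F (φ a i) (φ a (i + 1)))
    (h2 : ∀ (l : Fin 16) a, near F (φ a (2 * l.val)) (φ (π l a) (2 * l.val + 1)))
    {x : V} {k : ℕ} (l : Fin 16) (a : Fin s) (h : φ a 0 ∈ ball F x k) :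
    φ (π l a) 0 ∈ ball F x (k + 62) := by
  have hl := l.isLt
  have e1 := up_ball h1 a (2 * l.val) (by omega) h
  have e2 := ball_step e1 (h2 l a)
  have e3 := down_ball h1 (π l a) (2 * l.val + 1) (by omega) e2
  exact ball_mono (by omega) e3

lemma move_back (h1 : ∀ a, ∀ i < 31, near F (φ a i) (φ a (i + 1)))
    (h2 : ∀ (l : Fin 16) a, near F (φ a (2 * l.val)) (φ (π l a) (2 * l.val + 1)))
    {x : V} {k : ℕ} (l : Fin 16) (a : Fin s) (h : φ (π l a) 0 ∈ ball F x k) :
    φ a 0 ∈ ball F x (k + 62) := by
  have hl := l.isLt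
  have e1 := up_ball h1 (π l a) (2 * l.val + 1) (by omega) h
  have e2 := ball_step e1 (near_symm (h2 l a))
  have e3 := down_ball h1 a (2 * l.val) (by omega) e2
  exact ball_mono (by omega) e3

end Moves

/-- If one fibre is large then the map does not exist. -/
theorem det {V : Type} [Fintype V] (F : SimpleGraph V) (B M K h s m : ℕ)
    (hB : ∀ x, (nb F x).card ≤ B) (hM : B ^ (62 * (K + 140) + 64) ≤ M) (hF : Sparse F M)
    (hK : 16 ^ K * h < 17 ^ K) (hs : 0 < s) (hm : 2800 * m ≤ s)
    (π : Fin 16 → Equiv.Perm (Fin s)) (hπ : Expanding π)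
    (φ : Fin s → ℕ → V)
    (h1 : ∀ a, ∀ i < 31, near F (φ a i) (φ a (i + 1)))
    (h2 : ∀ (l : Fin 16) a, near F (φ a (2 * l.val)) (φ (π l a) (2 * l.val + 1)))
    (h3 : ∀ T : Finset (Fin s × Fin 32), (∀ p ∈ T, ∀ q ∈ T, φ p.1 p.2.val = φ q.1 q.2.val) →
      T.card ≤ m)
    (x0 : V) (A : Finset (Fin s)) (hA : ∀ a ∈ A, φ a 0 = x0) (hA2 : s ≤ h * A.card) : False := by
  classical
  have hApos : 0 < A.card := by
    rcases Nat.eq_zero_or_pos A.card with h0 | h0
    · rw [h0, mul_zero] at hA2; omega
    · exact h0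
  set Ak : ℕ → Finset (Fin s) := fun k => univ.filter (fun a => φ a 0 ∈ ball F x0 (62 * k)) with hAk
  have memA : ∀ k a, a ∈ Ak k ↔ φ a 0 ∈ ball F x0 (62 * k) := by
    intro k a; simp [hAk]
  have monoA : ∀ k, Ak k ⊆ Ak (k + 1) := by
    intro k a ha
    rw [memA] at ha ⊢
    exact ball_mono (by omega) ha
  have hA0 : ∀ k, A ⊆ Ak k := by
    intro k a ha
    rw [memA, hA a ha]
    exact ball_mono (Nat.zero_le _) (mem_ball_zero.2 rfl)
  -- growth
  have grow1 : ∀ k, s < 2 * (Ak k).card ∨ 17 ^ k * A.card ≤ 16 ^ k * (Ak k).card := by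
    intro k
    induction k with
    | zero =>
      right
      simpa using card_le_card (hA0 0)
    | succ k ih =>
      have hle := card_le_card (monoA k)
      rcases ih with ih | ih
      · left; omega
      · by_cases hbig : s < 2 * (Ak k).card
        · left; omega
        · right
          have hne : (Ak k).Nonempty := card_pos.1 (lt_of_lt_of_le hApos (card_le_card (hA0 k)))
          have he := hπ (Ak k) hne (by omega)
          have hsub : (univ.biUnion (fun l => (Ak k).image (π l))) \ Ak k ⊆ Ak (k + 1) \ Ak k := by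
            intro b hb
            simp only [mem_sdiff, mem_biUnion, mem_univ, true_and, mem_image] at hb
            obtain ⟨⟨l, a, ha, rfl⟩, hb2⟩ := hb
            rw [mem_sdiff]
            refine ⟨?_, hb2⟩
            rw [memA] at ha ⊢
            have := move h1 h2 l a ha
            rw [show 62 * (k + 1) = 62 * k + 62 by ring]
            exact this
          have hc := card_le_card hsub
          rw [card_sdiff_of_subset (monoA k)] at hc
          have h17 : 17 * (Ak k).card ≤ 16 * (Ak (k + 1)).card := by omega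
          calc 17 ^ (k + 1) * A.card = 17 * (17 ^ k * A.card) := by ring
            _ ≤ 17 * (16 ^ k * (Ak k).card) := Nat.mul_le_mul_left _ ih
            _ = 16 ^ k * (17 * (Ak k).card) := by ring
            _ ≤ 16 ^ k * (16 * (Ak (k + 1)).card) := Nat.mul_le_mul_left _ h17
            _ = 16 ^ (k + 1) * (Ak (k + 1)).card := by ring
  have hcardle : ∀ S : Finset (Fin s), S.card ≤ s := by
    intro S
    have := card_le_univ S
    rwa [Fintype.card_fin] at this
  have hhalf : s < 2 * (Ak K).card := by
    rcases grow1 K with h0 | h0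
    · exact h0
    · exfalso
      have e1 : 16 ^ K * (Ak K).card ≤ 16 ^ K * s := Nat.mul_le_mul_left _ (hcardle _)
      have e2 : 16 ^ K * s ≤ 16 ^ K * (h * A.card) := Nat.mul_le_mul_left _ hA2
      have e3 : 16 ^ K * (h * A.card) = (16 ^ K * h) * A.card := by ring
      have e4 : (16 ^ K * h) * A.card < 17 ^ K * A.card := Nat.mul_lt_mul_of_pos_right hK hApos
      omega
  -- the complement
  have hmonoK : ∀ j, (Ak K) ⊆ Ak (K + j) := by
    intro j
    induction j with
    | zero => exact Subset.refl _
    | succ j ih => exact ih.trans (monoA (K + j))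
  have hcompl : ∀ j, (univ \ Ak j).card = s - (Ak j).card := by
    intro j
    rw [card_sdiff_of_subset (subset_univ _), card_univ, Fintype.card_fin]
  have grow2 : ∀ j, 17 ^ j * (univ \ Ak (K + j)).card ≤ 16 ^ j * s := by
    intro j
    induction j with
    | zero => simpa using hcardle _
    | succ j ih =>
      by_cases hne : (univ \ Ak (K + (j + 1))).Nonempty
      · have hsm : 2 * (univ \ Ak (K + (j + 1))).card ≤ s := by
          rw [hcompl]
          have := card_le_card (hmonoK (j + 1))
          omega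
        have he := hπ _ hne hsm
        have hsub : (univ.biUnion (fun l => (univ \ Ak (K + (j + 1))).image (π l))) \
            (univ \ Ak (K + (j + 1))) ⊆ (univ \ Ak (K + j)) \ (univ \ Ak (K + (j + 1))) := by
          intro b hb
          simp only [mem_sdiff, mem_biUnion, mem_univ, true_and, mem_image, not_not] at hb ⊢
          obtain ⟨⟨l, a, ha, rfl⟩, hb2⟩ := hb
          refine ⟨?_, hb2⟩
          intro hc
          apply ha
          rw [memA] at hc ⊢
          have := move_back h1 h2 l a hc
          rw [show 62 * (K + (j + 1)) = 62 * (K + j) + 62 by ring]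
          exact this
        have hc := card_le_card hsub
        have hsub2 : (univ \ Ak (K + (j + 1))) ⊆ (univ \ Ak (K + j)) :=
          sdiff_subset_sdiff (Subset.refl _) (monoA (K + j))
        rw [card_sdiff_of_subset hsub2] at hc
        have hle := card_le_card hsub2
        have h17 : 17 * (univ \ Ak (K + (j + 1))).card ≤ 16 * (univ \ Ak (K + j)).card := by omega
        calc 17 ^ (j + 1) * (univ \ Ak (K + (j + 1))).card
            = 17 ^ j * (17 * (univ \ Ak (K + (j + 1))).card) := by ring
          _ ≤ 17 ^ j * (16 * (univ \ Ak (K + j)).card) := Nat.mul_le_mul_left _ h17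
          _ = 16 * (17 ^ j * (univ \ Ak (K + j)).card) := by ring
          _ ≤ 16 * (16 ^ j * s) := Nat.mul_le_mul_left _ ih
          _ = 16 ^ (j + 1) * s := by ring
      · rw [not_nonempty_iff_eq_empty] at hne
        rw [hne, card_empty, mul_zero]
        exact Nat.zero_le _
  set Bad := univ \ Ak (K + 140) with hBad
  have hBadcard : 2800 * Bad.card ≤ s := by
    have e1 := grow2 140
    have e2 : 2800 * 16 ^ 140 ≤ 17 ^ 140 := by norm_num
    have e3 : 16 ^ 140 * (2800 * Bad.card) ≤ 16 ^ 140 * s := by
      calc 16 ^ 140 * (2800 * Bad.card) = (2800 * 16 ^ 140) * Bad.card := by ring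
        _ ≤ 17 ^ 140 * Bad.card := Nat.mul_le_mul_right _ e2
        _ ≤ 16 ^ 140 * s := e1
    exact Nat.le_of_mul_le_mul_left e3 (by positivity)
  -- the ball
  set R := 62 * (K + 140) with hR
  set T := ball F x0 (R + 64) with hT
  have hTcard : T.card ≤ M := (card_ball hB x0 (R + 64)).trans hM
  have hgood : ∀ a, a ∉ Bad → ∀ i ≤ 31, φ a i ∈ T := by
    intro a ha i hi
    rw [hBad, mem_sdiff, not_and, not_not] at ha
    have ha2 := (memA _ _).1 (ha (mem_univ a))
    exact ball_mono (by omega) (up_ball h1 a i hi ha2)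
  set w : V → ℕ := fun x => (univ.filter (fun a => φ a 0 = x)).card with hw
  have hwm : ∀ x, w x ≤ m := by
    intro x
    have := h3 ((univ.filter (fun a => φ a 0 = x)).image (fun a => (a, (0 : Fin 32)))) (by
      intro p hp q hq
      simp only [mem_image, mem_filter, mem_univ, true_and] at hp hq
      obtain ⟨a, ha, rfl⟩ := hp
      obtain ⟨b, hb, rfl⟩ := hq
      change φ a 0 = φ b 0
      rw [ha, hb])
    rwa [card_image_of_injective _ (fun a b hab => (Prod.mk.inj hab).1)] at this
  have hsumS : ∀ S : Finset V, ∑ x ∈ S, w x = (univ.filter (fun a => φ a 0 ∈ S)).card := by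
    intro S
    rw [card_eq_sum_card_fiberwise (f := fun a => φ a 0) (t := S) (by
      intro a ha
      simpa using ha)]
    refine sum_congr rfl fun x hx => ?_
    simp only [hw]
    congr 1
    ext a
    simp only [mem_filter, mem_univ, true_and]
    constructor
    · intro ha; exact ⟨by rw [ha]; exact hx, ha⟩
    · intro ha; exact ha.2
  have hWge : s ≤ ∑ x ∈ T, w x + Bad.card := by
    rw [hsumS]
    have : (univ : Finset (Fin s)) ⊆ (univ.filter (fun a => φ a 0 ∈ T)) ∪ Bad := by
      intro a _
      by_cases ha : a ∈ Bad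
      · exact mem_union_right _ ha
      · exact mem_union_left _ (by simpa using hgood a ha 0 (by omega))
    have h5 := (card_le_card this).trans (card_union_le _ _)
    rwa [card_univ, Fintype.card_fin] at h5
  have hWle : ∑ x ∈ T, w x ≤ s := by
    rw [hsumS]; exact hcardle _
  obtain ⟨z, hz, S, hST, hzS, hcl, hS1, hS2⟩ := sep F M m hF T hTcard w (fun x _ => hwm x)
    (by omega) (by omega)
  set X := univ.filter (fun a => φ a 0 ∈ S) with hX
  have hXc : ∑ x ∈ S, w x = X.card := hsumS S
  rw [hXc] at hS1 hS2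
  -- exceptional points
  set Z1 := univ.filter (fun a : Fin s => ∃ i : Fin 32, φ a i.val = z) with hZ1
  have hZ1c : Z1.card ≤ m := by
    have h5 := h3 (univ.filter (fun p : Fin s × Fin 32 => φ p.1 p.2.val = z)) (by
      intro p hp q hq
      simp only [mem_filter, mem_univ, true_and] at hp hq
      rw [hp, hq])
    refine le_trans ?_ h5
    have : Z1 ⊆ (univ.filter (fun p : Fin s × Fin 32 => φ p.1 p.2.val = z)).image Prod.fst := by
      intro a ha
      simp only [hZ1, mem_filter, mem_univ, true_and] at ha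
      obtain ⟨i, hi⟩ := ha
      simp only [mem_image, mem_filter, mem_univ, true_and]
      exact ⟨(a, i), hi, rfl⟩
    exact (card_le_card this).trans card_image_le
  set Z := Z1 ∪ Bad with hZ
  have hZc : 2800 * Z.card ≤ 2 * s := by
    have := card_union_le Z1 Bad
    rw [← hZ] at this
    omega
  have hout : ∀ a, a ∉ Z → ∀ i ≤ 31, φ a i ∈ T ∧ φ a i ≠ z := by
    intro a ha i hi
    rw [hZ, mem_union, not_or] at ha
    refine ⟨hgood a ha.2 i hi, ?_⟩
    intro hc
    apply ha.1
    simp only [hZ1, mem_filter, mem_univ, true_and]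
    exact ⟨⟨i, by omega⟩, hc⟩
  have hstep : ∀ x y, near F x y → y ∈ T → y ≠ z → x ∈ S → y ∈ S := by
    intro x y hxy hy hyz hx
    rcases hxy with h5 | h5
    · rwa [← h5]
    · rcases hcl x hx y hy h5 with h6 | h6
      · exact h6
      · exact absurd h6 hyz
  have hstep2 : ∀ x y, near F x y → x ∈ T → x ≠ z → y ∈ T → y ≠ z → (x ∈ S ↔ y ∈ S) := by
    intro x y hxy hx hxz hy hyz
    exact ⟨hstep x y hxy hy hyz, hstep y x (near_symm hxy) hx hxz⟩
  have hconst : ∀ a, a ∉ Z → ∀ i ≤ 31, (φ a 0 ∈ S ↔ φ a i ∈ S) := by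
    intro a ha i
    induction i with
    | zero => intro _; exact Iff.rfl
    | succ i ih =>
      intro hi
      have e1 := hout a ha i (by omega)
      have e2 := hout a ha (i + 1) hi
      exact (ih (by omega)).trans (hstep2 _ _ (h1 a i (by omega)) e1.1 e1.2 e2.1 e2.2)
  have hpair : ∀ (l : Fin 16) a, a ∉ Z → π l a ∉ Z → (φ a 0 ∈ S ↔ φ (π l a) 0 ∈ S) := by
    intro l a ha hb
    have hl := l.isLt
    have e1 := hout a ha (2 * l.val) (by omega)
    have e2 := hout (π l a) hb (2 * l.val + 1) (by omega)
    exact ((hconst a ha (2 * l.val) (by omega)).trans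
      (hstep2 _ _ (h2 l a) e1.1 e1.2 e2.1 e2.2)).trans
      (hconst (π l a) hb (2 * l.val + 1) (by omega)).symm
  have hfinal : ∀ Y : Finset (Fin s), (∀ a b, (φ a 0 ∈ S ↔ φ b 0 ∈ S) → (a ∈ Y ↔ b ∈ Y)) →
      2 * Y.card ≤ s → s ≤ 5 * Y.card → False := by
    intro Y hY hY1 hY2
    have hYne : Y.Nonempty := card_pos.1 (by omega)
    have he := hπ Y hYne hY1
    have hsub : (univ.biUnion (fun l => Y.image (π l))) \ Y ⊆
        Z ∪ univ.biUnion (fun l => Z.image (π l)) := by
      intro b hb
      simp only [mem_sdiff, mem_biUnion, mem_univ, true_and, mem_image] at hb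
      obtain ⟨⟨l, a, ha, rfl⟩, hb2⟩ := hb
      simp only [mem_union, mem_biUnion, mem_univ, true_and, mem_image]
      by_cases haZ : a ∈ Z
      · exact Or.inr ⟨l, a, haZ, rfl⟩
      · by_cases hbZ : π l a ∈ Z
        · exact Or.inl hbZ
        · exfalso
          exact hb2 ((hY a (π l a) (hpair l a haZ hbZ)).1 ha)
    have hc : ((univ.biUnion (fun l => Y.image (π l))) \ Y).card ≤ Z.card + 16 * Z.card := by
      refine (card_le_card hsub).trans ((card_union_le _ _).trans ?_)
      refine Nat.add_le_add_left ?_ _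
      refine card_biUnion_le.trans ?_
      refine (sum_le_sum (fun l _ => card_image_le)).trans ?_
      simp
    omega
  by_cases hcase : 2 * X.card ≤ s
  · refine hfinal X ?_ hcase (by omega)
    intro a b hab
    simp only [hX, mem_filter, mem_univ, true_and]
    exact hab
  · have hXc2 : (univ \ X).card = s - X.card := by
      rw [card_sdiff_of_subset (subset_univ _), card_univ, Fintype.card_fin]
    have hXs := hcardle X
    refine hfinal (univ \ X) ?_ (by omega) (by omega)
    intro a b hab
    simp only [hX, mem_sdiff, mem_filter, mem_univ, true_and]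
    exact not_congr hab

end Pool.Agent.EeIns
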