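import Pool.Agent.Lib.MP_eee601_co.Ins.Defs

set_option autoImplicit false

namespace Pool.Agent.EeIns

open Finset

open Classical in
/-- the permutations which map `S` into `U` -/
noncomputable def mapsIn {s : ℕ} (S U : Finset (Fin s)) : Finset (Equiv.Perm (Fin s)) :=
  univ.filter (fun p => S.image p ⊆ U)

lemma mapsIn_card_eq {s : ℕ} {S S' U : Finset (Fin s)} (h : S.card = S'.card) :
    (mapsIn S' U).card = (mapsIn S U).card := by
  classical
  have e0 : {x // x ∈ S} ≃ {x // x ∈ S'} := Fintype.equivOfCardEq (by simp [h])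
  let σ : Equiv.Perm (Fin s) := e0.extendSubtype
  have hσ : S.image σ = S' := by
    apply Finset.eq_of_subset_of_card_le
    · intro y hy
      obtain ⟨x, hx, rfl⟩ := mem_image.1 hy
      exact e0.extendSubtype_mem x hx
    · rw [card_image_of_injective _ σ.injective, h]
  apply card_bij (fun p _ => p * σ)
  · intro p hp
    simp only [mapsIn, mem_filter, mem_univ, true_and] at hp ⊢
    rw [← hσ, image_image] at hp
    exact hp
  · intro p _ q _ hpq
    exact mul_right_cancel hpq
  · intro p hp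
    refine ⟨p * σ⁻¹, ?_, by simp⟩
    simp only [mapsIn, mem_filter, mem_univ, true_and] at hp ⊢
    rw [← hσ, image_image]
    have : (⇑(p * σ⁻¹) ∘ ⇑σ) = ⇑p := by
      funext x
      simp
    rw [this]
    exact hp

/-- the double counting identity -/
lemma mapsIn_card {s : ℕ} (S U : Finset (Fin s)) :
    s.choose S.card * (mapsIn S U).card = s.factorial * U.card.choose S.card := by
  classical
  have h1 : ∑ S' ∈ powersetCard S.card (univ : Finset (Fin s)), (mapsIn S' U).card
      = s.choose S.card * (mapsIn S U).card := by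
    rw [sum_congr rfl (fun S' hS' => mapsIn_card_eq (mem_powersetCard.1 hS').2.symm)]
    rw [sum_const, card_powersetCard, card_univ, Fintype.card_fin, smul_eq_mul]
  have h2 : ∑ p : Equiv.Perm (Fin s),
      ((powersetCard S.card (univ : Finset (Fin s))).filter (fun S' => S'.image p ⊆ U)).card
      = s.factorial * U.card.choose S.card := by
    have : ∀ p : Equiv.Perm (Fin s),
        ((powersetCard S.card (univ : Finset (Fin s))).filter (fun S' => S'.image p ⊆ U)).card
        = U.card.choose S.card := by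
      intro p
      rw [← card_powersetCard S.card U]
      apply card_bij (fun S' _ => S'.image p)
      · intro S' hS'
        rw [mem_filter, mem_powersetCard] at hS'
        rw [mem_powersetCard]
        exact ⟨hS'.2, by rw [card_image_of_injective _ p.injective, hS'.1.2]⟩
      · intro A _ B _ hAB
        exact image_injective p.injective hAB
      · intro V hV
        rw [mem_powersetCard] at hV
        refine ⟨V.image p.symm, ?_, ?_⟩
        · rw [mem_filter, mem_powersetCard]
          refine ⟨⟨subset_univ _, ?_⟩, ?_⟩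
          · rw [card_image_of_injective _ p.symm.injective, hV.2]
          · rw [image_image]
            simpa using hV.1
        · rw [image_image]
          simp
    rw [sum_congr rfl (fun p _ => this p), sum_const, card_univ, Fintype.card_perm,
      Fintype.card_fin, smul_eq_mul]
  rw [← h1, ← h2]
  simp only [mapsIn, card_filter]
  rw [sum_comm]

lemma choose_mono_half {s t k : ℕ} (htk : t ≤ k) (hk : 2 * k ≤ s) : s.choose t ≤ s.choose k := by
  induction k with
  | zero =>
    have : t = 0 := by omega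
    rw [this]
  | succ k ih =>
    rcases Nat.lt_or_ge t (k + 1) with h | h
    · refine (ih (by omega) (by omega)).trans ?_
      apply Nat.choose_le_succ_of_lt_half_left
      omega
    · have : t = k + 1 := by omega
      rw [this]

lemma two_pow_le_choose {s k : ℕ} (hk : 2 * k ≤ s) : 2 ^ k ≤ s.choose k := by
  have h1 : 2 ^ k ≤ Nat.centralBinom k := by
    clear hk
    induction k with
    | zero => simp
    | succ k ih =>
      have h2 := Nat.succ_mul_centralBinom_succ k
      have h3 : (k + 1) * 2 ^ (k + 1) ≤ (k + 1) * Nat.centralBinom (k + 1) := by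
        rw [h2, pow_succ]
        nlinarith [Nat.zero_le k]
      exact Nat.le_of_mul_le_mul_left h3 (by omega)
  refine h1.trans ?_
  rw [Nat.centralBinom_eq_two_mul_choose]
  exact Nat.choose_le_choose k hk

lemma choose_mul_pow_le {k t : ℕ} : (k + t).choose k * 16 ^ k ≤ 17 ^ (k + t) := by
  have h := add_pow (16 : ℕ) 1 (k + t)
  have h1 : (17 : ℕ) ^ (k + t) = ∑ m ∈ range (k + t + 1), 16 ^ m * 1 ^ (k + t - m) * (k + t).choose m := h
  rw [h1]
  have h2 : (k + t).choose k * 16 ^ k = 16 ^ k * 1 ^ (k + t - k) * (k + t).choose k := by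
    rw [one_pow, mul_one, mul_comm]
  rw [h2]
  exact single_le_sum (f := fun m => 16 ^ m * 1 ^ (k + t - m) * (k + t).choose m)
    (fun _ _ => Nat.zero_le _) (mem_range.2 (by omega))

lemma choose_pow_le {k t : ℕ} (ht : 16 * t ≤ k) : (k + t).choose k ^ 16 ≤ 45 ^ k := by
  have h1 : ((k + t).choose k * 16 ^ k) ^ 16 ≤ (17 ^ (k + t)) ^ 16 :=
    Nat.pow_le_pow_left choose_mul_pow_le 16
  have h2 : ((17 : ℕ) ^ (k + t)) ^ 16 ≤ (17 ^ 17) ^ k := by
    rw [← pow_mul, ← pow_mul]
    exact Nat.pow_le_pow_right (by norm_num) (by omega)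
  have h3 : ((17 : ℕ) ^ 17) ^ k ≤ (45 * 16 ^ 16) ^ k := Nat.pow_le_pow_left (by norm_num) k
  have h4 : (k + t).choose k ^ 16 * ((16 : ℕ) ^ 16) ^ k ≤ 45 ^ k * (16 ^ 16) ^ k := by
    calc (k + t).choose k ^ 16 * ((16 : ℕ) ^ 16) ^ k = ((k + t).choose k * 16 ^ k) ^ 16 := by
          rw [mul_pow, ← pow_mul, ← pow_mul, mul_comm k 16]
      _ ≤ (45 * 16 ^ 16) ^ k := h1.trans (h2.trans h3)
      _ = 45 ^ k * (16 ^ 16) ^ k := by rw [mul_pow]
  exact Nat.le_of_mul_le_mul_right h4 (by positivity)

/-- the number of 16-tuples which map `S` into `S ∪ T` -/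
lemma tuple_bound {s k : ℕ} (S T : Finset (Fin s)) (hS : S.card = k)
    (hT : T.card = k / 16) :
    (s.choose k) ^ 16 * (mapsIn S (S ∪ T)).card ^ 16 ≤ s.factorial ^ 16 * 45 ^ k := by
  classical
  have h1 := mapsIn_card S (S ∪ T)
  rw [hS] at h1
  have h2 : (S ∪ T).card ≤ k + k / 16 := by
    have := card_union_le S T
    omega
  have h3 : (S ∪ T).card.choose k ≤ (k + k / 16).choose k := Nat.choose_le_choose k h2
  rw [← mul_pow, h1, mul_pow]
  apply Nat.mul_le_mul_left
  exact (Nat.pow_le_pow_left h3 16).trans (choose_pow_le (by omega))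

open Classical in
/-- the bad tuples are covered -/
lemma bad_subset (s : ℕ) :
    (univ.filter (fun π : Fin 16 → Equiv.Perm (Fin s) => ¬ Expanding π)) ⊆
      (Icc 1 (s / 2)).biUnion (fun k =>
        ((powersetCard k (univ : Finset (Fin s))) ×ˢ
          (powersetCard (k / 16) (univ : Finset (Fin s)))).biUnion (fun ST =>
            Fintype.piFinset (fun _ : Fin 16 => mapsIn ST.1 (ST.1 ∪ ST.2)))) := by
  intro π hπ
  simp only [mem_filter, mem_univ, true_and, Expanding, not_forall, not_lt] at hπ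
  obtain ⟨S, hS, hS2, hS3⟩ := hπ
  have h1 : ((univ.biUnion (fun l => S.image (π l))) \ S).card ≤ S.card / 16 := by omega
  have h2 : S.card / 16 ≤ (univ : Finset (Fin s)).card := by
    rw [card_univ, Fintype.card_fin]
    omega
  obtain ⟨T, hT1, _, hT3⟩ := exists_subsuperset_card_eq (subset_univ _) h1 h2
  simp only [mem_biUnion, mem_Icc, mem_product, mem_powersetCard, Fintype.mem_piFinset,
    Prod.exists]
  refine ⟨S.card, ⟨hS.card_pos, by omega⟩, S, T, ⟨⟨subset_univ _, rfl⟩, subset_univ _, hT3⟩, ?_⟩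
  intro l
  simp only [mapsIn, mem_filter, mem_univ, true_and]
  intro y hy
  by_cases hyS : y ∈ S
  · exact mem_union_left _ hyS
  · apply mem_union_right
    apply hT1
    rw [mem_sdiff]
    exact ⟨mem_biUnion.2 ⟨l, mem_univ _, hy⟩, hyS⟩

lemma sum_quarter (n : ℕ) : 3 * ∑ k ∈ Icc 1 n, (1 / 4 : ℝ) ^ k ≤ 1 := by
  have : ∀ n : ℕ, 3 * ∑ k ∈ Icc 1 n, (1 / 4 : ℝ) ^ k = 1 - (1 / 4 : ℝ) ^ n := by
    intro n
    induction n with
    | zero => simp
    | succ n ih =>
      rw [sum_Icc_succ_top (by omega), mul_add, ih, pow_succ]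
      ring
  rw [this n]
  have : (0 : ℝ) < (1 / 4 : ℝ) ^ n := by positivity
  linarith

open Classical in
/-- At most one third of the 16-tuples of permutations do not expand. -/
theorem bad_exp (s : ℕ) :
    3 * (univ.filter (fun π : Fin 16 → Equiv.Perm (Fin s) => ¬ Expanding π)).card
      ≤ s.factorial ^ 16 := by
  have hb : ((univ.filter (fun π : Fin 16 → Equiv.Perm (Fin s) => ¬ Expanding π)).card : ℝ)
      ≤ ∑ k ∈ Icc 1 (s / 2), (s.factorial : ℝ) ^ 16 * (1 / 4 : ℝ) ^ k := by
    have h1 := (card_le_card (bad_subset s)).trans card_biUnion_le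
    have h2 : ((univ.filter (fun π : Fin 16 → Equiv.Perm (Fin s) => ¬ Expanding π)).card : ℝ)
        ≤ ∑ k ∈ Icc 1 (s / 2), ((((powersetCard k (univ : Finset (Fin s))) ×ˢ
          (powersetCard (k / 16) (univ : Finset (Fin s)))).biUnion (fun ST =>
            Fintype.piFinset (fun _ : Fin 16 => mapsIn ST.1 (ST.1 ∪ ST.2)))).card : ℝ) := by
      exact_mod_cast h1
    refine h2.trans (sum_le_sum fun k hk => ?_)
    rw [mem_Icc] at hk
    have hk2 : 2 * k ≤ s := by omega
    have hC : (0 : ℝ) < (s.choose k : ℝ) := by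
      exact_mod_cast Nat.choose_pos (by omega)
    have h3 : ((((powersetCard k (univ : Finset (Fin s))) ×ˢ
          (powersetCard (k / 16) (univ : Finset (Fin s)))).biUnion (fun ST =>
            Fintype.piFinset (fun _ : Fin 16 => mapsIn ST.1 (ST.1 ∪ ST.2)))).card : ℝ)
        ≤ ∑ ST ∈ ((powersetCard k (univ : Finset (Fin s))) ×ˢ
          (powersetCard (k / 16) (univ : Finset (Fin s)))),
            (s.factorial : ℝ) ^ 16 * 45 ^ k / (s.choose k : ℝ) ^ 16 := by
      refine le_trans ?_ (sum_le_sum (f := fun ST : Finset (Fin s) × Finset (Fin s) =>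
        ((mapsIn ST.1 (ST.1 ∪ ST.2)).card : ℝ) ^ 16) fun ST hST => ?_)
      · have := (card_biUnion_le (s := ((powersetCard k (univ : Finset (Fin s))) ×ˢ
          (powersetCard (k / 16) (univ : Finset (Fin s))))) (t := fun ST =>
            Fintype.piFinset (fun _ : Fin 16 => mapsIn ST.1 (ST.1 ∪ ST.2))))
        simp only [Fintype.card_piFinset_const] at this
        exact_mod_cast this
      · rw [mem_product, mem_powersetCard, mem_powersetCard] at hST
        rw [le_div_iff₀ (by positivity), mul_comm]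
        exact_mod_cast tuple_bound ST.1 ST.2 hST.1.2 hST.2.2
    refine h3.trans ?_
    rw [sum_const, card_product, card_powersetCard, card_powersetCard, card_univ,
      Fintype.card_fin, nsmul_eq_mul]
    have h4 : ((s.choose k * s.choose (k / 16) : ℕ) : ℝ) ≤ (s.choose k : ℝ) ^ 2 := by
      rw [pow_two]
      exact_mod_cast Nat.mul_le_mul_left _ (choose_mono_half (by omega) hk2)
    have h5 : (2 : ℝ) ^ k ≤ (s.choose k : ℝ) := by
      exact_mod_cast two_pow_le_choose hk2
    have h6 : (45 : ℝ) ^ k ≤ (s.choose k : ℝ) ^ 14 * (1 / 4 : ℝ) ^ k := by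
      have h7 : ((2 : ℝ) ^ k) ^ 14 ≤ (s.choose k : ℝ) ^ 14 := pow_le_pow_left₀ (by positivity) h5 14
      have h8 : (45 : ℝ) ^ k ≤ ((2 : ℝ) ^ k) ^ 14 * (1 / 4 : ℝ) ^ k := by
        rw [← pow_mul, mul_comm k 14, pow_mul, ← mul_pow]
        exact pow_le_pow_left₀ (by norm_num) (by norm_num) k
      exact h8.trans (mul_le_mul_of_nonneg_right h7 (by positivity))
    calc ((s.choose k * s.choose (k / 16) : ℕ) : ℝ) *
          ((s.factorial : ℝ) ^ 16 * 45 ^ k / (s.choose k : ℝ) ^ 16)
        ≤ (s.choose k : ℝ) ^ 2 * ((s.factorial : ℝ) ^ 16 * ((s.choose k : ℝ) ^ 14 *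
          (1 / 4 : ℝ) ^ k) / (s.choose k : ℝ) ^ 16) := by
          apply mul_le_mul h4 _ (by positivity) (by positivity)
          apply div_le_div_of_nonneg_right _ (by positivity)
          exact mul_le_mul_of_nonneg_left h6 (by positivity)
      _ = (s.factorial : ℝ) ^ 16 * (1 / 4 : ℝ) ^ k := by
          field_simp
  rw [← mul_sum] at hb
  have h9 := sum_quarter (s / 2)
  have h10 : (0 : ℝ) ≤ (s.factorial : ℝ) ^ 16 := by positivity
  have h11 : 3 * ((univ.filter (fun π : Fin 16 → Equiv.Perm (Fin s) => ¬ Expanding π)).card : ℝ)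
      ≤ (s.factorial : ℝ) ^ 16 := by
    calc 3 * ((univ.filter (fun π : Fin 16 → Equiv.Perm (Fin s) => ¬ Expanding π)).card : ℝ)
        ≤ 3 * ((s.factorial : ℝ) ^ 16 * ∑ k ∈ Icc 1 (s / 2), (1 / 4 : ℝ) ^ k) := by linarith
      _ = (s.factorial : ℝ) ^ 16 * (3 * ∑ k ∈ Icc 1 (s / 2), (1 / 4 : ℝ) ^ k) := by ring
      _ ≤ (s.factorial : ℝ) ^ 16 * 1 := mul_le_mul_of_nonneg_left h9 h10
      _ = _ := mul_one _
  exact_mod_cast h11

end Pool.Agent.EeIns
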