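import Mathlib

set_option autoImplicit false

/-!
Sparse host graphs: for every `γ > 0` there is `D` such that for every `M` some nonempty finite
graph has all degrees at most `D`, no independent set with more than `γ q` of its `q` vertices and
no cycle of length at most `M`.  (Union of `d` random functions, two deletions.)
-/

namespace Pool.MP_eee601_co.Ins.Host

open Finset

/-- The graph of a family of `d` functions on `Fin N`. -/
def fg {d N : ℕ} (f : Fin d × Fin N → Fin N) : SimpleGraph (Fin N) where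
  Adj u v := u ≠ v ∧ ∃ l, f (l, u) = v ∨ f (l, v) = u
  symm := ⟨by
    rintro u v ⟨h, l, hl⟩
    exact ⟨h.symm, l, hl.symm⟩⟩
  loopless := ⟨fun u h => h.1 rfl⟩

/-! ### Independent sets -/

/-- The functions for which `S` is independent. -/
noncomputable def indepSet (d N : ℕ) (S : Finset (Fin N)) : Finset (Fin d × Fin N → Fin N) := by
  classical
  exact univ.filter fun f => ∀ u ∈ S, ∀ v ∈ S, ¬ (fg f).Adj u v

theorem card_indepSet_le {d N : ℕ} (S : Finset (Fin N)) (hN : 0 < N) :
    ((indepSet d N S).card : ℝ) ≤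
      (N : ℝ) ^ (d * N) * Real.exp (-(d * (S.card * ((S.card : ℝ) - 1)) / N)) := by
  classical
  have hNr : (0 : ℝ) < N := by exact_mod_cast hN
  set T : Fin d × Fin N → Finset (Fin N) := fun p => if p.2 ∈ S then (S.erase p.2)ᶜ else univ
    with hT
  have hsub : indepSet d N S ⊆ Fintype.piFinset T := by
    intro f hf
    rw [indepSet, mem_filter] at hf
    rw [Fintype.mem_piFinset]
    rintro ⟨l, u⟩
    simp only [hT]
    split_ifs with hu
    · rw [mem_compl, mem_erase]
      rintro ⟨hne, hm⟩
      exact hf.2 u hu _ hm ⟨hne.symm, l, Or.inl rfl⟩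
    · exact mem_univ _
  have h1 : ((indepSet d N S).card : ℝ) ≤ ∏ p : Fin d × Fin N, ((T p).card : ℝ) := by
    have := card_le_card hsub
    rw [Fintype.card_piFinset] at this
    exact_mod_cast this
  have h2 : ∀ p : Fin d × Fin N, ((T p).card : ℝ) ≤
      N * (if p.2 ∈ S then Real.exp (-(((S.card : ℝ) - 1) / N)) else 1) := by
    rintro ⟨l, u⟩
    simp only [hT]
    split_ifs with hu
    · have hc : ((S.erase u)ᶜ.card : ℝ) = N - (S.card - 1) := by
        have ha := card_add_card_compl (S.erase u)
        rw [card_erase_of_mem hu, Fintype.card_fin] at ha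
        have hpos : 1 ≤ S.card := card_pos.mpr ⟨u, hu⟩
        have hb : ((S.card - 1 : ℕ) : ℝ) + ((S.erase u)ᶜ.card : ℝ) = N := by exact_mod_cast ha
        rw [Nat.cast_sub hpos, Nat.cast_one] at hb
        linarith
      rw [hc]
      have he := Real.add_one_le_exp (-(((S.card : ℝ) - 1) / N))
      calc (N : ℝ) - (S.card - 1) = N * (-(((S.card : ℝ) - 1) / N) + 1) := by
            field_simp
            ring
        _ ≤ N * Real.exp (-(((S.card : ℝ) - 1) / N)) := mul_le_mul_of_nonneg_left he hNr.le
    · simp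
  have h3 : ∏ p : Fin d × Fin N, ((T p).card : ℝ) ≤
      ∏ p : Fin d × Fin N, (N * (if p.2 ∈ S then Real.exp (-(((S.card : ℝ) - 1) / N)) else 1)) :=
    prod_le_prod (fun p _ => Nat.cast_nonneg _) (fun p _ => h2 p)
  refine h1.trans (h3.trans (le_of_eq ?_))
  rw [prod_mul_distrib, prod_const, card_univ, Fintype.card_prod, Fintype.card_fin,
    Fintype.card_fin]
  congr 1
  have h4 : ∏ p : Fin d × Fin N, (if p.2 ∈ S then Real.exp (-(((S.card : ℝ) - 1) / N)) else 1) =
      ∏ _l : Fin d, ∏ u : Fin N,
        (if u ∈ S then Real.exp (-(((S.card : ℝ) - 1) / N)) else 1) := by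
    rw [← univ_product_univ, prod_product]
  rw [h4, prod_const, card_univ, Fintype.card_fin, prod_ite_mem, univ_inter, prod_const,
    ← Real.exp_nat_mul, ← Real.exp_nat_mul]
  congr 1
  ring

/-- For `d` large compared with `γ⁻²`, less than a quarter of the families have an independent set
of at least `γ N` vertices. -/
theorem card_bad_indep {d N : ℕ} {γ : ℝ} (hγ : 0 < γ) (hd : 4 ≤ d * γ ^ 2) (hN : 2 ≤ γ * N)
    (hN2 : 2 ≤ N) :
    (((univ : Finset (Finset (Fin N))).filter (fun S => γ * N ≤ S.card)).biUnion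
      (indepSet d N)).card < (N : ℝ) ^ (d * N) / 4 := by
  classical
  have hN0 : 0 < N := by omega
  have hNr : (0 : ℝ) < N := by exact_mod_cast hN0
  set 𝒮 := (univ : Finset (Finset (Fin N))).filter (fun S => γ * N ≤ S.card) with h𝒮
  have hone : ∀ S ∈ 𝒮, ((indepSet d N S).card : ℝ) ≤ (N : ℝ) ^ (d * N) * Real.exp (-(2 * N)) := by
    intro S hS
    rw [h𝒮, mem_filter] at hS
    refine (card_indepSet_le S hN0).trans ?_
    refine mul_le_mul_of_nonneg_left (Real.exp_le_exp.mpr ?_) (by positivity)
    have hk : γ * N ≤ (S.card : ℝ) := hS.2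
    have hk1 : γ * N / 2 ≤ (S.card : ℝ) - 1 := by linarith
    have hmul : (γ * N) * (γ * N / 2) ≤ S.card * ((S.card : ℝ) - 1) :=
      mul_le_mul hk hk1 (by positivity) (by positivity)
    have hd0 : (0 : ℝ) ≤ d := by positivity
    rw [neg_le_neg_iff, le_div_iff₀ hNr]
    calc 2 * (N : ℝ) * N ≤ (d * γ ^ 2) * (N * N) / 2 := by
          have : (4 : ℝ) * (N * N) ≤ (d * γ ^ 2) * (N * N) :=
            mul_le_mul_of_nonneg_right hd (by positivity)
          linarith
      _ = d * ((γ * N) * (γ * N / 2)) := by ring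
      _ ≤ d * (S.card * ((S.card : ℝ) - 1)) := mul_le_mul_of_nonneg_left hmul hd0
  have hcard : ((𝒮.biUnion (indepSet d N)).card : ℝ) ≤
      ∑ S ∈ 𝒮, ((indepSet d N S).card : ℝ) := by
    exact_mod_cast card_biUnion_le
  have hsum : ∑ S ∈ 𝒮, ((indepSet d N S).card : ℝ) ≤
      𝒮.card * ((N : ℝ) ^ (d * N) * Real.exp (-(2 * N))) := by
    have := sum_le_card_nsmul 𝒮 (fun S => ((indepSet d N S).card : ℝ)) _ hone
    rwa [nsmul_eq_mul] at this
  have h𝒮c : (𝒮.card : ℝ) ≤ 2 ^ N := by
    have : 𝒮.card ≤ 2 ^ N := by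
      refine (card_le_univ _).trans ?_
      rw [Fintype.card_finset, Fintype.card_fin]
    exact_mod_cast this
  have hpow : (0 : ℝ) < (N : ℝ) ^ (d * N) := by positivity
  have he : (2 : ℝ) ^ N * Real.exp (-(2 * N)) < 1 / 4 := by
    have h2 : (2 : ℝ) < Real.exp 1 := by
      have := Real.exp_one_gt_d9
      linarith
    have h3 : (2 : ℝ) ^ N * Real.exp (-(2 * N)) = (2 * Real.exp (-2)) ^ N := by
      rw [mul_pow, ← Real.exp_nat_mul]
      congr 2
      ring
    rw [h3]
    have h4 : 2 * Real.exp (-2) < 1 / 3 := by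
      have h5 : Real.exp (-2) = (Real.exp 1 * Real.exp 1)⁻¹ := by
        rw [← Real.exp_add, ← Real.exp_neg]
        norm_num
      rw [h5]
      have h6 := Real.exp_one_gt_d9
      have h7 : (7 : ℝ) < Real.exp 1 * Real.exp 1 := by nlinarith
      have h8 : (Real.exp 1 * Real.exp 1)⁻¹ < 1 / 7 := by
        rw [inv_lt_comm₀ (by positivity) (by norm_num)]
        norm_num
        exact h7
      linarith
    have h9 : (0 : ℝ) ≤ 2 * Real.exp (-2) := by positivity
    calc (2 * Real.exp (-2)) ^ N ≤ (2 * Real.exp (-2)) ^ 2 :=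
          pow_le_pow_of_le_one h9 (by linarith) hN2
      _ < 1 / 4 := by nlinarith
  calc ((𝒮.biUnion (indepSet d N)).card : ℝ)
      ≤ 𝒮.card * ((N : ℝ) ^ (d * N) * Real.exp (-(2 * N))) := hcard.trans hsum
    _ ≤ 2 ^ N * ((N : ℝ) ^ (d * N) * Real.exp (-(2 * N))) :=
        mul_le_mul_of_nonneg_right h𝒮c (by positivity)
    _ = (N : ℝ) ^ (d * N) * (2 ^ N * Real.exp (-(2 * N))) := by ring
    _ < (N : ℝ) ^ (d * N) * (1 / 4) := mul_lt_mul_of_pos_left he hpow
    _ = (N : ℝ) ^ (d * N) / 4 := by ring

/-! ### Short cycles -/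

/-- Source of the `i`-th arc of a labelled closed sequence. -/
def src {d N k : ℕ} (c : (Fin (k + 3) → Fin N) × (Fin (k + 3) → Fin d × Bool))
    (i : Fin (k + 3)) : Fin N :=
  if (c.2 i).2 then c.1 i else c.1 (i + 1)

/-- Target of the `i`-th arc of a labelled closed sequence. -/
def tgt {d N k : ℕ} (c : (Fin (k + 3) → Fin N) × (Fin (k + 3) → Fin d × Bool))
    (i : Fin (k + 3)) : Fin N :=
  if (c.2 i).2 then c.1 (i + 1) else c.1 i

/-- The labelled cycles of length `k + 3` of a family `f`. -/
noncomputable def cycs {d N : ℕ} (k : ℕ) (f : Fin d × Fin N → Fin N) :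
    Finset ((Fin (k + 3) → Fin N) × (Fin (k + 3) → Fin d × Bool)) := by
  classical
  exact univ.filter fun c => Function.Injective c.1 ∧ ∀ i, f ((c.2 i).1, src c i) = tgt c i

/-- The families having the labelled cycle `c`. -/
noncomputable def hav {d N k : ℕ} (c : (Fin (k + 3) → Fin N) × (Fin (k + 3) → Fin d × Bool)) :
    Finset (Fin d × Fin N → Fin N) := by
  classical
  exact univ.filter fun f => Function.Injective c.1 ∧ ∀ i, f ((c.2 i).1, src c i) = tgt c i

theorem succ_ne {k : ℕ} (i : Fin (k + 3)) : i + 1 ≠ i := by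
  intro h
  have := congrArg Fin.val h
  rw [Fin.val_add] at this
  have hi := i.isLt
  have h1 : ((1 : Fin (k + 3)) : ℕ) = 1 := rfl
  rw [h1] at this
  rcases Nat.lt_or_ge ((i : ℕ) + 1) (k + 3) with hlt | hge
  · rw [Nat.mod_eq_of_lt hlt] at this
    omega
  · have : (i : ℕ) + 1 = k + 3 := by omega
    simp_all

theorem succ_succ_ne {k : ℕ} (i : Fin (k + 3)) : i + 1 + 1 ≠ i := by
  intro h
  have h0 : (1 : Fin (k + 3)) + 1 = 0 := by
    have : i + (1 + 1) = i + 0 := by rw [← add_assoc, h, add_zero]
    exact add_left_cancel this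
  have := congrArg Fin.val h0
  rw [Fin.val_add] at this
  have h1 : ((1 : Fin (k + 3)) : ℕ) = 1 := rfl
  rw [h1, Nat.mod_eq_of_lt (by omega)] at this
  simp at this

theorem card_hav_le {d N k : ℕ}
    (c : (Fin (k + 3) → Fin N) × (Fin (k + 3) → Fin d × Bool)) :
    (hav c).card * N ^ (k + 3) ≤ N ^ (d * N) := by
  classical
  rcases (hav c).eq_empty_or_nonempty with h0 | ⟨f0, hf0⟩
  · rw [h0, card_empty, zero_mul]
    exact Nat.zero_le _
  rw [hav, mem_filter] at hf0
  obtain ⟨-, hinj, hf0⟩ := hf0
  -- the constrained arguments are pairwise distinct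
  set p : Fin (k + 3) → Fin d × Fin N := fun i => ((c.2 i).1, src c i) with hp
  have hpinj : Function.Injective p := by
    intro i j hij
    have hs : src c i = src c j := congrArg Prod.snd hij
    have ht : tgt c i = tgt c j := by
      rw [← hf0 i, ← hf0 j]
      exact congrArg f0 hij
    unfold src at hs
    unfold tgt at ht
    by_contra hne
    split_ifs at hs ht with h1 h2 h2
    · exact hne (hinj hs)
    · have e1 := hinj hs
      have e2 := hinj ht
      rw [e1] at e2
      exact succ_succ_ne j e2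
    · have e1 := hinj hs
      have e2 := hinj ht
      rw [← e1] at e2
      exact succ_succ_ne i e2.symm
    · exact hne (hinj ht)
  set A : Finset (Fin d × Fin N) := univ.image p with hA
  have hAc : A.card = k + 3 := by
    rw [hA, card_image_of_injective _ hpinj, card_univ, Fintype.card_fin]
  set T : Fin d × Fin N → Finset (Fin N) := fun x => if x ∈ A then {f0 x} else univ with hT
  have hsub : hav c ⊆ Fintype.piFinset T := by
    intro f hf
    rw [hav, mem_filter] at hf
    rw [Fintype.mem_piFinset]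
    intro x
    simp only [hT]
    split_ifs with hx
    · rw [hA, mem_image] at hx
      obtain ⟨i, -, rfl⟩ := hx
      rw [mem_singleton]
      simp only [hp]
      rw [hf.2.2 i, hf0 i]
    · exact mem_univ _
  have hcard : (Fintype.piFinset T).card = N ^ (d * N - (k + 3)) := by
    rw [Fintype.card_piFinset]
    have : ∀ x, (T x).card = if x ∈ Aᶜ then N else 1 := by
      intro x
      simp only [hT, mem_compl]
      by_cases hx : x ∈ A
      · simp [hx]
      · simp [hx]
    rw [prod_congr rfl (fun x _ => this x), prod_ite_mem, univ_inter, prod_const, card_compl,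
      Fintype.card_prod, Fintype.card_fin, Fintype.card_fin, hAc]
  have hle : k + 3 ≤ d * N := by
    rw [← hAc]
    refine (card_le_univ A).trans ?_
    rw [Fintype.card_prod, Fintype.card_fin, Fintype.card_fin]
  calc (hav c).card * N ^ (k + 3) ≤ N ^ (d * N - (k + 3)) * N ^ (k + 3) := by
        refine Nat.mul_le_mul_right _ ?_
        rw [← hcard]
        exact card_le_card hsub
    _ = N ^ (d * N) := by rw [← pow_add, Nat.sub_add_cancel hle]

theorem sum_cycs_le {d N : ℕ} (k : ℕ) (hN : 0 < N) :
    ∑ f : Fin d × Fin N → Fin N, (cycs k f).card ≤ (2 * d) ^ (k + 3) * N ^ (d * N) := by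
  classical
  have hswap : ∑ f : Fin d × Fin N → Fin N, (cycs k f).card =
      ∑ c : (Fin (k + 3) → Fin N) × (Fin (k + 3) → Fin d × Bool), (hav c).card := by
    simp only [cycs, hav, card_filter]
    rw [sum_comm]
  rw [hswap]
  have hNp : 0 < N ^ (k + 3) := pow_pos hN _
  refine Nat.le_of_mul_le_mul_right ?_ hNp
  rw [sum_mul]
  calc ∑ c : (Fin (k + 3) → Fin N) × (Fin (k + 3) → Fin d × Bool), (hav c).card * N ^ (k + 3)
      ≤ ∑ _c : (Fin (k + 3) → Fin N) × (Fin (k + 3) → Fin d × Bool), N ^ (d * N) :=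
        sum_le_sum fun c _ => card_hav_le c
    _ = (2 * d) ^ (k + 3) * N ^ (d * N) * N ^ (k + 3) := by
        rw [sum_const, card_univ, smul_eq_mul, Fintype.card_prod, Fintype.card_fun,
          Fintype.card_fun, Fintype.card_prod, Fintype.card_fin, Fintype.card_fin,
          Fintype.card_fin, Fintype.card_bool]
        ring

/-- The number of labelled cycles of length at most `M + 2`. -/
noncomputable def shorts {d N : ℕ} (M : ℕ) (f : Fin d × Fin N → Fin N) : ℕ :=
  ∑ k ∈ range M, (cycs k f).card

theorem sum_shorts_le {d N : ℕ} (M : ℕ) (hN : 0 < N) :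
    ∑ f : Fin d × Fin N → Fin N, shorts M f ≤
      (∑ k ∈ range M, (2 * d) ^ (k + 3)) * N ^ (d * N) := by
  unfold shorts
  rw [sum_comm, sum_mul]
  exact sum_le_sum fun k _ => sum_cycs_le k hN

/-- A family with few short cycles and no large independent set. -/
theorem exists_family {d : ℕ} {γ : ℝ} (hγ : 0 < γ) (hd : 4 ≤ d * γ ^ 2) (M : ℕ) {N : ℕ}
    (hN : 2 ≤ γ * N) (hN2 : 2 ≤ N) :
    ∃ f : Fin d × Fin N → Fin N,
      (∀ S : Finset (Fin N), (∀ u ∈ S, ∀ v ∈ S, ¬ (fg f).Adj u v) → (S.card : ℝ) < γ * N) ∧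
      shorts M f ≤ 4 * ∑ k ∈ range M, (2 * d) ^ (k + 3) := by
  classical
  have hN0 : 0 < N := by omega
  have hNr : (0 : ℝ) < N := by exact_mod_cast hN0
  set K := ∑ k ∈ range M, (2 * d) ^ (k + 3) with hK
  set 𝒮 := (univ : Finset (Finset (Fin N))).filter (fun S => γ * N ≤ S.card) with h𝒮
  set B1 := 𝒮.biUnion (indepSet d N) with hB1
  set B2 : Finset (Fin d × Fin N → Fin N) := univ.filter fun f => 4 * K < shorts M f with hB2
  have h1 : (B1.card : ℝ) < (N : ℝ) ^ (d * N) / 4 := card_bad_indep hγ hd hN hN2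
  have h2 : B2.card * 4 ≤ N ^ (d * N) := by
    have ha : B2.card * (4 * K + 1) ≤ K * N ^ (d * N) := by
      calc B2.card * (4 * K + 1) = ∑ _f ∈ B2, (4 * K + 1) := by rw [sum_const, smul_eq_mul]
        _ ≤ ∑ f ∈ B2, shorts M f := by
            refine sum_le_sum fun f hf => ?_
            rw [hB2, mem_filter] at hf
            omega
        _ ≤ ∑ f : Fin d × Fin N → Fin N, shorts M f :=
            sum_le_sum_of_subset (subset_univ _)
        _ ≤ K * N ^ (d * N) := sum_shorts_le M hN0
    rcases Nat.eq_zero_or_pos K with hK0 | hK0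
    · rw [hK0] at ha
      have : B2.card = 0 := by simpa using ha
      rw [this]
      positivity
    · have hb : K * (B2.card * 4) ≤ K * N ^ (d * N) := by
        calc K * (B2.card * 4) ≤ B2.card * (4 * K + 1) := by
              rw [mul_add, mul_one]
              have : K * (B2.card * 4) = B2.card * (4 * K) := by ring
              omega
          _ ≤ K * N ^ (d * N) := ha
      exact Nat.le_of_mul_le_mul_left hb hK0
  have h2r : (B2.card : ℝ) * 4 ≤ (N : ℝ) ^ (d * N) := by exact_mod_cast h2
  have hex : ∃ f, f ∉ B1 ∪ B2 := by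
    by_contra hcon
    push Not at hcon
    have huniv : B1 ∪ B2 = univ := eq_univ_iff_forall.mpr hcon
    have hc : (univ : Finset (Fin d × Fin N → Fin N)).card ≤ B1.card + B2.card := by
      rw [← huniv]
      exact card_union_le _ _
    rw [card_univ, Fintype.card_fun, Fintype.card_prod, Fintype.card_fin,
      Fintype.card_fin] at hc
    have hcr : (N : ℝ) ^ (d * N) ≤ B1.card + B2.card := by exact_mod_cast hc
    have hpos : (0 : ℝ) < (N : ℝ) ^ (d * N) := by positivity
    linarith
  obtain ⟨f, hf⟩ := hex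
  rw [mem_union, not_or] at hf
  refine ⟨f, fun S hS => ?_, ?_⟩
  · by_contra hlt
    push Not at hlt
    apply hf.1
    rw [hB1, mem_biUnion]
    refine ⟨S, ?_, ?_⟩
    · rw [h𝒮, mem_filter]
      exact ⟨mem_univ _, hlt⟩
    · rw [indepSet, mem_filter]
      exact ⟨mem_univ _, hS⟩
  · by_contra hlt
    push Not at hlt
    apply hf.2
    rw [hB2, mem_filter]
    exact ⟨mem_univ _, hlt⟩

/-! ### Deletion -/

/-- Number of arguments sent to `u`. -/
def indeg {d N : ℕ} (f : Fin d × Fin N → Fin N) (u : Fin N) : ℕ :=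
  (univ.filter fun p : Fin d × Fin N => f p = u).card

theorem sum_indeg {d N : ℕ} (f : Fin d × Fin N → Fin N) : ∑ u, indeg f u = d * N := by
  have h := card_eq_sum_card_fiberwise (f := f) (s := univ) (t := univ)
    (fun x _ => mem_coe.mpr (mem_univ _))
  rw [card_univ, Fintype.card_prod, Fintype.card_fin, Fintype.card_fin] at h
  exact h.symm

theorem card_big_le {d N : ℕ} (f : Fin d × Fin N → Fin N) (hd : 0 < d) :
    (univ.filter fun u => 4 * d < indeg f u).card * 4 ≤ N := by
  have h : (univ.filter fun u => 4 * d < indeg f u).card * (4 * d) ≤ d * N := by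
    rw [← sum_indeg f]
    calc (univ.filter fun u => 4 * d < indeg f u).card * (4 * d)
        = ∑ _u ∈ univ.filter (fun u => 4 * d < indeg f u), 4 * d := by
          rw [sum_const, smul_eq_mul]
      _ ≤ ∑ u ∈ univ.filter (fun u => 4 * d < indeg f u), indeg f u := by
          refine sum_le_sum fun u hu => ?_
          rw [mem_filter] at hu
          exact hu.2.le
      _ ≤ ∑ u, indeg f u := sum_le_sum_of_subset (subset_univ _)
  refine Nat.le_of_mul_le_mul_left ?_ hd
  calc d * ((univ.filter fun u => 4 * d < indeg f u).card * 4)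
      = (univ.filter fun u => 4 * d < indeg f u).card * (4 * d) := by ring
    _ ≤ d * N := h

theorem degree_le {d N : ℕ} (f : Fin d × Fin N → Fin N) (u : Fin N) :
    ((fg f).neighborSet u).ncard ≤ d + indeg f u := by
  classical
  set A : Finset (Fin N) := (univ : Finset (Fin d)).image (fun l => f (l, u)) with hA
  set B : Finset (Fin N) := (univ.filter fun p : Fin d × Fin N => f p = u).image Prod.snd with hB
  have hsub : (fg f).neighborSet u ⊆ ((A ∪ B : Finset (Fin N)) : Set (Fin N)) := by
    rintro v ⟨-, l, h | h⟩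
    · rw [mem_coe, mem_union]
      left
      rw [hA, mem_image]
      exact ⟨l, mem_univ _, h⟩
    · rw [mem_coe, mem_union]
      right
      rw [hB, mem_image]
      exact ⟨(l, v), by rw [mem_filter]; exact ⟨mem_univ _, h⟩, rfl⟩
  calc ((fg f).neighborSet u).ncard ≤ ((A ∪ B : Finset (Fin N)) : Set (Fin N)).ncard :=
        Set.ncard_le_ncard hsub (Finset.finite_toSet _)
    _ = (A ∪ B).card := Set.ncard_coe_finset _
    _ ≤ A.card + B.card := card_union_le _ _
    _ ≤ d + indeg f u := by
        refine Nat.add_le_add ?_ card_image_le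
        refine card_image_le.trans ?_
        rw [card_univ, Fintype.card_fin]

/-- Sparse hosts: bounded degree, small independence number, large girth; the degree bound does not
depend on the girth. -/
theorem host {γ : ℝ} (hγ : 0 < γ) : ∃ D : ℕ, ∀ M : ℕ, ∃ q : ℕ, 0 < q ∧
    ∃ F : SimpleGraph (Fin q), (∀ v, (F.neighborSet v).ncard ≤ D) ∧
      (∀ S : Finset (Fin q), (∀ u ∈ S, ∀ v ∈ S, ¬ F.Adj u v) → (S.card : ℝ) ≤ γ * q) ∧
      ∀ (v : Fin q) (w : F.Walk v v), w.IsCycle → M < w.length := by
  classical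
  have hγ' : 0 < γ / 2 := by positivity
  obtain ⟨d, hd⟩ := exists_nat_ge (4 / (γ / 2) ^ 2)
  have hd4 : 4 ≤ d * (γ / 2) ^ 2 := (div_le_iff₀ (by positivity)).mp hd
  have hd0 : 0 < d := by
    rcases Nat.eq_zero_or_pos d with h | h
    · rw [h] at hd4
      norm_num at hd4
    · exact h
  refine ⟨5 * d, fun M => ?_⟩
  set K := ∑ k ∈ range M, (2 * d) ^ (k + 3) with hK
  obtain ⟨N0, hN0⟩ := exists_nat_ge (2 / (γ / 2))
  set N := N0 + 2 + 16 * K with hNdef
  have hN : 2 ≤ γ / 2 * N := by
    have h1 : 2 ≤ γ / 2 * N0 := by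
      rw [div_le_iff₀ hγ'] at hN0
      linarith
    refine h1.trans (mul_le_mul_of_nonneg_left ?_ hγ'.le)
    exact_mod_cast (by omega : N0 ≤ N)
  obtain ⟨f, hf1, hf2⟩ := exists_family hγ' hd4 M hN (by omega : 2 ≤ N)
  set B1 : Finset (Fin N) := univ.filter fun u => 4 * d < indeg f u with hB1
  set B2 : Finset (Fin N) := (range M).biUnion fun k => (cycs k f).image fun c => c.1 0 with hB2
  have hB1c : B1.card * 4 ≤ N := card_big_le f hd0
  have hB2c : B2.card ≤ 4 * K := by
    refine le_trans ?_ hf2
    refine card_biUnion_le.trans (sum_le_sum fun k _ => card_image_le)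
  set V : Finset (Fin N) := (B1 ∪ B2)ᶜ with hV
  have hVc : N ≤ 2 * V.card := by
    have h1 := card_add_card_compl (B1 ∪ B2)
    rw [Fintype.card_fin] at h1
    have h2 := card_union_le B1 B2
    rw [hV]
    omega
  have hq : 0 < V.card := by omega
  set e : Fin V.card ↪o Fin N := V.orderEmbOfFin rfl with he
  have heV : ∀ i, e i ∉ B1 ∧ e i ∉ B2 := fun i => by
    have h1 : e i ∈ V := orderEmbOfFin_mem V rfl i
    have h2 : e i ∉ B1 ∪ B2 := mem_compl.mp h1
    rwa [mem_union, not_or] at h2
  refine ⟨V.card, hq, (fg f).comap e, fun v => ?_, fun S hS => ?_, fun v w hw => ?_⟩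
  · -- degrees
    have hv : indeg f (e v) ≤ 4 * d := by
      have h1 := heV v
      by_contra hlt
      push Not at hlt
      exact h1.1 (by rw [hB1, mem_filter]; exact ⟨mem_univ _, hlt⟩)
    have h2 : (((fg f).comap e).neighborSet v).ncard ≤ ((fg f).neighborSet (e v)).ncard := by
      refine Set.ncard_le_ncard_of_injOn e (fun x hx => ?_) (e.injective.injOn) (Set.toFinite _)
      exact hx
    have h3 := degree_le f (e v)
    omega
  · -- independent sets
    have h1 : (((S.map e.toEmbedding).card : ℕ) : ℝ) < γ / 2 * N := by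
      refine hf1 _ fun u hu v hv hadj => ?_
      rw [mem_map] at hu hv
      obtain ⟨x, hx, rfl⟩ := hu
      obtain ⟨y, hy, rfl⟩ := hv
      exact hS x hx y hy hadj
    rw [card_map] at h1
    have h2 : (N : ℝ) ≤ 2 * V.card := by exact_mod_cast hVc
    have h3 : γ / 2 * N ≤ γ / 2 * (2 * V.card) := mul_le_mul_of_nonneg_left h2 hγ'.le
    linarith
  · -- cycles
    by_contra hlt
    push Not at hlt
    have hL := hw.three_le_length
    obtain ⟨k, hk⟩ : ∃ k, w.length = k + 3 := ⟨w.length - 3, by omega⟩
    have hadj : ∀ i : Fin (k + 3), (fg f).Adj (e (w.getVert i)) (e (w.getVert (i + 1 : Fin (k + 3)))) := by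
      intro i
      have h1 : ((fg f).comap e).Adj (w.getVert i) (w.getVert (i + 1)) :=
        w.adj_getVert_succ (by rw [hk]; exact i.isLt)
      have h2 : w.getVert ((i + 1 : Fin (k + 3)) : ℕ) = w.getVert ((i : ℕ) + 1) := by
        rcases Nat.lt_or_ge ((i : ℕ) + 1) (k + 3) with hlt | hge
        · congr 1
          rw [Fin.val_add]
          have h1 : ((1 : Fin (k + 3)) : ℕ) = 1 := rfl
          rw [h1, Nat.mod_eq_of_lt hlt]
        · have hi : (i : ℕ) + 1 = k + 3 := by omega
          have h0 : ((i + 1 : Fin (k + 3)) : ℕ) = 0 := by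
            rw [Fin.val_add]
            have h1 : ((1 : Fin (k + 3)) : ℕ) = 1 := rfl
            rw [h1, hi, Nat.mod_self]
          rw [h0, hi, ← hk, w.getVert_zero, w.getVert_length]
      rw [h2]
      exact h1
    choose hne lab hlab using hadj
    set c : (Fin (k + 3) → Fin N) × (Fin (k + 3) → Fin d × Bool) :=
      (fun i => e (w.getVert i), fun i => (lab i,
        decide (f (lab i, e (w.getVert i)) = e (w.getVert (i + 1 : Fin (k + 3)))))) with hc
    have hcm : c ∈ cycs k f := by
      rw [cycs, mem_filter]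
      refine ⟨mem_univ _, ?_, fun i => ?_⟩
      · intro i j hij
        have h1 : w.getVert i = w.getVert j := e.injective hij
        have hi : (i : ℕ) ≤ w.length - 1 := by
          have := i.isLt
          omega
        have hj : (j : ℕ) ≤ w.length - 1 := by
          have := j.isLt
          omega
        exact Fin.ext (hw.getVert_injOn' hi hj h1)
      · unfold src tgt
        by_cases h : f (lab i, e (w.getVert i)) = e (w.getVert (i + 1 : Fin (k + 3)))
        · simp only [hc, h, decide_true, if_true]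
        · have h3 := (hlab i).resolve_left h
          simp only [hc, h, decide_false, Bool.false_eq_true, if_false]
          exact h3
    apply (heV v).2
    rw [hB2, mem_biUnion]
    refine ⟨k, by rw [mem_range]; omega, ?_⟩
    rw [mem_image]
    refine ⟨c, hcm, ?_⟩
    simp [hc]

end Pool.MP_eee601_co.Ins.Host
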