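import Pool.Agent.Lib.MP_eee601_co.Ins.Defs
import Pool.Agent.Lib.MP_eee601_co.Ins.HostCore

set_option autoImplicit false

namespace Pool.Agent.EeIns

open Finset

/-- An acyclic graph on a nonempty finite vertex set has fewer edges than vertices. -/
lemma acyclic_edges {W : Type} [Fintype W] [Nonempty W] (G : SimpleGraph W) (hG : G.IsAcyclic) :
    Nat.card G.Dart < 2 * Fintype.card W := by
  classical
  obtain ⟨T, hGT, -, hT⟩ :=
    (SimpleGraph.connected_top (V := W)).exists_isTree_le_of_le_of_isAcyclic le_top hG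
  have h1 := hT.card_edgeFinset
  have h2 : G.edgeFinset.card ≤ T.edgeFinset.card :=
    card_le_card (SimpleGraph.edgeFinset_mono hGT)
  rw [Nat.card_eq_fintype_card, G.dart_card_eq_twice_card_edges]
  have h3 : #G.edgeFinset ≤ #T.edgeFinset := h2
  omega

/-- Without cycles of length at most `M` the graph is sparse. -/
lemma sparse_of_girth {V : Type} (F : SimpleGraph V) (M : ℕ)
    (h : ∀ (v : V) (w : F.Walk v v), w.IsCycle → M < w.length) : Sparse F M := by
  classical
  intro U hU hM
  have hne : Nonempty (U : Set V) := by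
    obtain ⟨x, hx⟩ := hU
    exact ⟨⟨x, hx⟩⟩
  have hac : (F.induce (U : Set V)).IsAcyclic := by
    intro v w hw
    let φ : F.induce (U : Set V) →g F := ⟨Subtype.val, fun {a b} hab => hab⟩
    have hφ : Function.Injective φ := Subtype.val_injective
    have h1 := h _ (w.map φ) (hw.map hφ)
    rw [SimpleGraph.Walk.length_map] at h1
    have h2 : w.support.tail.length ≤ Fintype.card (U : Set V) := hw.support_nodup.length_le_card
    have h3 : w.support.tail.length = w.length := by simp
    have h4 : Fintype.card (U : Set V) = U.card := by simp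
    omega
  have h1 := acyclic_edges _ hac
  have h4 : Fintype.card (U : Set V) = U.card := by simp
  rw [h4, Nat.card_eq_fintype_card] at h1
  refine lt_of_le_of_lt ?_ h1
  unfold deg2
  rw [← Fintype.card_coe]
  have hm : ∀ p : {x // x ∈ (U ×ˢ U).filter fun p => F.Adj p.1 p.2},
      p.1.1 ∈ U ∧ p.1.2 ∈ U ∧ F.Adj p.1.1 p.1.2 := by
    rintro ⟨p, hp⟩
    rw [mem_filter, mem_product] at hp
    exact ⟨hp.1.1, hp.1.2, hp.2⟩
  have key : ∀ p : {x // x ∈ (U ×ˢ U).filter fun p => F.Adj p.1 p.2},
      ∃ d : (F.induce (U : Set V)).Dart, (d.fst.1, d.snd.1) = p.1 := fun p =>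
    ⟨⟨(⟨p.1.1, (hm p).1⟩, ⟨p.1.2, (hm p).2.1⟩), (hm p).2.2⟩, rfl⟩
  choose g hg using key
  refine Fintype.card_le_of_injective g ?_
  intro p q hpq
  exact Subtype.ext (by rw [← hg p, ← hg q, hpq])

/-- Locally sparse graphs of bounded degree with small independence number. -/
theorem host (γ : ℝ) (hγ : 0 < γ) : ∃ B : ℕ, 1 ≤ B ∧ ∀ M : ℕ, ∃ (V : Type) (_ : Fintype V)
    (F : SimpleGraph V), 0 < Fintype.card V ∧ (∀ x, (nb F x).card ≤ B) ∧ Sparse F M ∧
    ∀ S : Finset V, (∀ x ∈ S, ∀ y ∈ S, ¬ F.Adj x y) → (S.card : ℝ) ≤ γ * Fintype.card V := by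
  classical
  obtain ⟨D, hD⟩ := Pool.MP_eee601_co.Ins.Host.host hγ
  refine ⟨D + 1, by omega, fun M => ?_⟩
  obtain ⟨q, hq, F, h1, h2, h3⟩ := hD M
  refine ⟨Fin q, inferInstance, F, by simpa using hq, ?_, sparse_of_girth F M h3, ?_⟩
  · intro x
    have hsub : nb F x ⊆ insert x (F.neighborFinset x) := by
      intro z hz
      rw [mem_nb] at hz
      rcases hz with rfl | hz
      · exact mem_insert_self _ _
      · exact mem_insert_of_mem (by simpa using hz)
    refine (card_le_card hsub).trans ((card_insert_le _ _).trans ?_)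
    have := h1 x
    rw [Set.ncard_eq_toFinset_card'] at this
    simpa [SimpleGraph.neighborFinset] using this
  · intro S hS
    rw [Fintype.card_fin]
    exact h2 S hS

end Pool.Agent.EeIns
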