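import Pool.Agent.Lib.MP_eee601_co.Ins.Defs

set_option autoImplicit false

namespace Pool.Agent.EeIns

open Finset

private theorem walk_fact (s : ℕ) : s ^ s ≤ 3 ^ s * s.factorial := by
  have h := Real.pow_div_factorial_le_exp (x := (s:ℝ)) (by positivity) s
  have h1 : Real.exp (s:ℝ) ≤ 3 ^ s := by
    have : Real.exp (s:ℝ) = (Real.exp 1) ^ s := by
      rw [← Real.exp_nat_mul]; simp
    rw [this]
    exact pow_le_pow_left₀ (Real.exp_pos 1).le (by linarith [Real.exp_one_lt_d9]) s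
  have h2 := h.trans h1
  rw [div_le_iff₀ (by positivity)] at h2
  exact_mod_cast h2

open Classical in
/-- The number of walks. -/
private theorem walk_card {V : Type} [Fintype V] (F : SimpleGraph V) (K B : ℕ)
    (hB : ∀ x, (ball F x K).card ≤ B) (s : ℕ) :
    (univ.filter (fun f : Fin (s + 1) → V =>
      ∀ a b : Fin (s + 1), b.val = a.val + 1 → f b ∈ ball F (f a) K)).card
      ≤ Fintype.card V * B ^ s := by
  induction s with
  | zero =>
    refine (card_filter_le _ _).trans ?_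
    rw [card_univ, Fintype.card_fun, Fintype.card_fin]
    simp
  | succ s ih =>
    set W := univ.filter (fun f : Fin (s + 1 + 1) → V =>
      ∀ a b : Fin (s + 1 + 1), b.val = a.val + 1 → f b ∈ ball F (f a) K) with hW
    have h1 := card_le_mul_card_image (f := fun f : Fin (s + 1 + 1) → V =>
      (fun a : Fin (s + 1) => f a.castSucc)) W B (by
        intro g _
        refine (card_le_card_of_injOn (fun f => f (Fin.last (s + 1)))
          (t := ball F (g (Fin.last s)) K) ?_ ?_).trans (hB _)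
        · intro f hf
          rw [mem_coe, mem_filter, hW, mem_filter] at hf
          obtain ⟨⟨_, hf⟩, hg⟩ := hf
          rw [mem_coe, ← hg]
          exact hf _ _ (by simp)
        · intro f hf f' hf' h
          rw [mem_coe, mem_filter] at hf hf'
          have h2 := hf.2.trans hf'.2.symm
          funext a
          refine Fin.lastCases h (fun i => ?_) a
          exact congrFun h2 i)
    refine h1.trans ?_
    rw [pow_succ, ← mul_assoc, mul_comm]
    refine Nat.mul_le_mul_right _ ((card_le_card ?_).trans ih)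
    intro g hg
    rw [mem_image] at hg
    obtain ⟨f, hf, rfl⟩ := hg
    rw [hW, mem_filter] at hf
    rw [mem_filter]
    exact ⟨mem_univ _, fun a b hab => hf.2 _ _ (by simpa using hab)⟩

open Classical in
/-- The number of permutations for one map. -/
private theorem walk_perm {V : Type} [Fintype V] (F : SimpleGraph V) (K B : ℕ)
    (hB : ∀ x, (ball F x K).card ≤ B) (s w : ℕ) (f : Fin s → V)
    (hf : ∀ T : Finset (Fin s), (∀ a ∈ T, ∀ b ∈ T, f a = f b) → T.card ≤ w) :
    (univ.filter (fun σ : Equiv.Perm (Fin s) => ∀ a, f (σ a) ∈ ball F (f a) K)).card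
      ≤ (B * w) ^ s := by
  have h1 : ∀ a : Fin s, (univ.filter (fun b : Fin s => f b ∈ ball F (f a) K)).card ≤ B * w := by
    intro a
    have h2 := card_le_mul_card_image (f := f)
      (univ.filter (fun b : Fin s => f b ∈ ball F (f a) K)) w (by
        intro y _
        apply hf
        intro b hb c hc
        rw [mem_filter] at hb hc
        rw [hb.2, hc.2])
    refine h2.trans ?_
    rw [mul_comm]
    refine Nat.mul_le_mul_right _ ((card_le_card ?_).trans (hB (f a)))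
    intro y hy
    rw [mem_image] at hy
    obtain ⟨b, hb, rfl⟩ := hy
    exact (mem_filter.1 hb).2
  refine (card_le_card_of_injOn (fun σ : Equiv.Perm (Fin s) => (fun a => σ a))
    (t := Fintype.piFinset (fun a => univ.filter (fun b : Fin s => f b ∈ ball F (f a) K)))
    ?_ ?_).trans ?_
  · intro σ hσ
    rw [mem_coe, mem_filter] at hσ
    rw [mem_coe, Fintype.mem_piFinset]
    intro a
    rw [mem_filter]
    exact ⟨mem_univ _, hσ.2 a⟩
  · intro σ _ τ _ h
    exact Equiv.ext fun a => congrFun h a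
  · rw [Fintype.card_piFinset]
    calc ∏ a : Fin s, (univ.filter (fun b : Fin s => f b ∈ ball F (f a) K)).card
        ≤ ∏ _a : Fin s, (B * w) := prod_le_prod' fun a _ => h1 a
      _ = (B * w) ^ s := by simp

open Classical in
/-- The general form. -/
private theorem walk_gen {V : Type} [Fintype V] (F : SimpleGraph V) (K B : ℕ) (hB1 : 1 ≤ B)
    (hB : ∀ x, (ball F x K).card ≤ B) (s w : ℕ) (hw : 6 * B ^ 2 * w ≤ s)
    (hs : 3 * Fintype.card V ≤ 2 ^ s) (hs0 : 0 < s) :
    3 * (univ.filter (fun π : Fin 16 → Equiv.Perm (Fin s) => ∃ f : Fin s → V,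
      (∀ a b : Fin s, b.val = a.val + 1 → f b ∈ ball F (f a) K) ∧
      (∀ T : Finset (Fin s), (∀ a ∈ T, ∀ b ∈ T, f a = f b) → T.card ≤ w) ∧
      (∀ l a, f (π l a) ∈ ball F (f a) K))).card
      ≤ s.factorial ^ 16 := by
  obtain ⟨t, rfl⟩ : ∃ t, s = t + 1 := ⟨s - 1, by omega⟩
  set W := (univ.filter (fun f : Fin (t + 1) → V =>
      ∀ a b : Fin (t + 1), b.val = a.val + 1 → f b ∈ ball F (f a) K)).filter
    (fun f => ∀ T : Finset (Fin (t + 1)), (∀ a ∈ T, ∀ b ∈ T, f a = f b) → T.card ≤ w) with hW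
  have h1 : (univ.filter (fun π : Fin 16 → Equiv.Perm (Fin (t + 1)) =>
      ∃ f : Fin (t + 1) → V, (∀ a b : Fin (t + 1), b.val = a.val + 1 → f b ∈ ball F (f a) K) ∧
      (∀ T : Finset (Fin (t + 1)), (∀ a ∈ T, ∀ b ∈ T, f a = f b) → T.card ≤ w) ∧
      (∀ l a, f (π l a) ∈ ball F (f a) K))) ⊆
      W.biUnion (fun f => Fintype.piFinset (fun _ : Fin 16 =>
        univ.filter (fun σ : Equiv.Perm (Fin (t + 1)) => ∀ a, f (σ a) ∈ ball F (f a) K))) := by
    intro π hπ
    rw [mem_filter] at hπ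
    obtain ⟨_, f, hf1, hf2, hf3⟩ := hπ
    rw [mem_biUnion]
    refine ⟨f, ?_, ?_⟩
    · rw [hW, mem_filter, mem_filter]
      exact ⟨⟨mem_univ _, hf1⟩, hf2⟩
    · rw [Fintype.mem_piFinset]
      intro l
      rw [mem_filter]
      exact ⟨mem_univ _, hf3 l⟩
  have h2 : (univ.filter (fun π : Fin 16 → Equiv.Perm (Fin (t + 1)) =>
      ∃ f : Fin (t + 1) → V, (∀ a b : Fin (t + 1), b.val = a.val + 1 → f b ∈ ball F (f a) K) ∧
      (∀ T : Finset (Fin (t + 1)), (∀ a ∈ T, ∀ b ∈ T, f a = f b) → T.card ≤ w) ∧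
      (∀ l a, f (π l a) ∈ ball F (f a) K))).card ≤
      Fintype.card V * B ^ t * ((B * w) ^ (t + 1)) ^ 16 := by
    refine (card_le_card h1).trans ((card_biUnion_le_card_mul _ _ (((B * w) ^ (t + 1)) ^ 16) ?_).trans
      (Nat.mul_le_mul_right _ ((card_filter_le _ _).trans (walk_card F K B hB t))))
    intro f hf
    rw [hW, mem_filter] at hf
    rw [Fintype.card_piFinset, prod_const, card_univ, Fintype.card_fin]
    exact Nat.pow_le_pow_left (walk_perm F K B hB (t + 1) w f hf.2) 16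
  generalize hs' : t + 1 = s at *
  have h3 : (s ^ s) ^ 16 ≤ (3 ^ s * s.factorial) ^ 16 := Nat.pow_le_pow_left (walk_fact s) 16
  have h4 : (6 * B ^ 2 * w) ^ s ≤ s ^ s := Nat.pow_le_pow_left hw s
  have h5 : ((6 * B ^ 2 * w) ^ s) ^ 16 ≤ (3 ^ s * s.factorial) ^ 16 :=
    (Nat.pow_le_pow_left h4 16).trans h3
  have h6 : ((6 * B ^ 2 * w) ^ s) ^ 16 = (3 ^ s) ^ 16 * (2 ^ s * (B ^ s) ^ 2 * w ^ s) ^ 16 := by
    have : 6 * B ^ 2 * w = 3 * (2 * B ^ 2 * w) := by ring
    rw [this, mul_pow 3, mul_pow (3 ^ s)]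
    congr 2
    rw [mul_pow, mul_pow, ← pow_mul, ← pow_mul, mul_comm 2 s]
  rw [h6, mul_pow (3 ^ s) s.factorial] at h5
  have h7 : (2 ^ s * (B ^ s) ^ 2 * w ^ s) ^ 16 ≤ s.factorial ^ 16 :=
    Nat.le_of_mul_le_mul_left h5 (by positivity)
  refine le_trans ?_ h7
  have hBt : B ^ t ≤ B ^ s := Nat.pow_le_pow_right hB1 (by omega)
  have hB0 : 1 ≤ B ^ s := Nat.one_le_pow _ _ hB1
  have h20 : 1 ≤ 2 ^ s := Nat.one_le_two_pow
  calc 3 * (univ.filter (fun π : Fin 16 → Equiv.Perm (Fin s) => ∃ f : Fin s → V, (∀ a b : Fin s, b.val = a.val + 1 → f b ∈ ball F (f a) K) ∧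
      (∀ T : Finset (Fin s), (∀ a ∈ T, ∀ b ∈ T, f a = f b) → T.card ≤ w) ∧
      (∀ l a, f (π l a) ∈ ball F (f a) K))).card
      ≤ 3 * (Fintype.card V * B ^ t * ((B * w) ^ s) ^ 16) := Nat.mul_le_mul_left _ h2
    _ = (3 * Fintype.card V) * B ^ t * ((B ^ s) ^ 16 * (w ^ s) ^ 16) := by
        rw [mul_pow B w s, mul_pow]
        ring
    _ ≤ 2 ^ s * B ^ s * ((B ^ s) ^ 16 * (w ^ s) ^ 16) :=
        Nat.mul_le_mul_right _ (Nat.mul_le_mul hs hBt)
    _ = 2 ^ s * (B ^ s) ^ 17 * (w ^ s) ^ 16 := by ring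
    _ ≤ (2 ^ s) ^ 16 * (B ^ s) ^ 32 * (w ^ s) ^ 16 :=
        Nat.mul_le_mul_right _ (Nat.mul_le_mul (Nat.le_self_pow (by norm_num) _)
          (Nat.pow_le_pow_right hB0 (by norm_num)))
    _ = (2 ^ s * (B ^ s) ^ 2 * w ^ s) ^ 16 := by ring

open Classical in
/-- At most one third of the 16-tuples of permutations admit a wild map. -/
theorem bad_walk {V : Type} [Fintype V] (F : SimpleGraph V) (B : ℕ) (hB1 : 1 ≤ B)
    (hB : ∀ x, (ball F x 62).card ≤ B) (s w : ℕ) (hw : 6 * B ^ 2 * w ≤ s)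
    (hs : 3 * Fintype.card V ≤ 2 ^ s) (hs0 : 0 < s) :
    3 * (univ.filter (fun π : Fin 16 → Equiv.Perm (Fin s) => ∃ f : Fin s → V, Wild F s w π f)).card
      ≤ s.factorial ^ 16 := by
  have h := walk_gen F 62 B hB1 hB s w hw hs hs0
  refine (Nat.mul_le_mul_left 3 (card_le_card ?_)).trans h
  intro π hπ
  exact mem_filter.2 ⟨mem_univ _, (mem_filter.1 hπ).2⟩

end Pool.Agent.EeIns
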