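import Pool.Agent.Lib.MP_eee601_co.Ins.Det
import Pool.Agent.Lib.MP_eee601_co.Ins.Host
import Pool.Agent.Lib.MP_eee601_co.Ins.Exp
import Pool.Agent.Lib.MP_eee601_co.Ins.Walk

set_option autoImplicit false

namespace Pool.Agent.EeIns

open Finset

attribute [local irreducible] ball

theorem exists_good {V : Type} [Fintype V] (F : SimpleGraph V) (B : ℕ) (hB1 : 1 ≤ B)
    (hB : ∀ x, (ball F x 62).card ≤ B) (s w : ℕ) (hw : 6 * B ^ 2 * w ≤ s)
    (hs : 3 * Fintype.card V ≤ 2 ^ s) (hs0 : 0 < s) :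
    ∃ π : Fin 16 → Equiv.Perm (Fin s), Expanding π ∧ ¬ ∃ f : Fin s → V, Wild F s w π f := by
  classical
  by_contra hcon
  push Not at hcon
  have e1 := bad_exp s
  have e2 := bad_walk F B hB1 hB s w hw hs hs0
  have hsub : (univ : Finset (Fin 16 → Equiv.Perm (Fin s))) ⊆
      univ.filter (fun π : Fin 16 → Equiv.Perm (Fin s) => ¬ Expanding π) ∪
      univ.filter (fun π : Fin 16 → Equiv.Perm (Fin s) => ∃ f : Fin s → V, Wild F s w π f) := by
    intro π _
    simp only [mem_union, mem_filter, mem_univ, true_and]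
    by_cases h : Expanding π
    · exact Or.inr (hcon π h)
    · exact Or.inl h
  have h3 := (card_le_card hsub).trans (card_union_le _ _)
  have h4 : (univ : Finset (Fin 16 → Equiv.Perm (Fin s))).card = s.factorial ^ 16 := by
    rw [card_univ, Fintype.card_fun, Fintype.card_perm, Fintype.card_fin, Fintype.card_fin]
  have h5 : 0 < s.factorial ^ 16 := by positivity
  rw [h4] at h3
  omega

/-- the conditions on a map which comes from a red copy -/
def Adm {V : Type} (F : SimpleGraph V) (s m : ℕ) (π : Fin 16 → Equiv.Perm (Fin s))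
    (φ : Fin s → ℕ → V) : Prop :=
  (∀ a, ∀ i < 31, near F (φ a i) (φ a (i + 1))) ∧
  (∀ a b : Fin s, b.val = a.val + 1 → near F (φ a 31) (φ b 0)) ∧
  (∀ (l : Fin 16) a, near F (φ a (2 * l.val)) (φ (π l a) (2 * l.val + 1))) ∧
  (∀ T : Finset (Fin s × Fin 32), (∀ p ∈ T, ∀ q ∈ T, φ p.1 p.2.val = φ q.1 q.2.val) →
      T.card ≤ m)

theorem nomap (γ : ℝ) (hγ : 0 < γ) : ∃ (V : Type) (_ : Fintype V) (F : SimpleGraph V),
    0 < Fintype.card V ∧
    (∀ S : Finset V, (∀ x ∈ S, ∀ y ∈ S, ¬ F.Adj x y) → (S.card : ℝ) ≤ γ * Fintype.card V) ∧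
    ∃ s0 : ℕ, ∀ s ≥ s0, ∃ π : Fin 16 → Equiv.Perm (Fin s), ∀ φ : Fin s → ℕ → V, ∀ m : ℕ,
      2800 * m ≤ s → ¬ Adm F s m π φ := by
  classical
  obtain ⟨B, hB1, hhost⟩ := host γ hγ
  set B0 := B ^ 62 with hB0
  have hB01 : 1 ≤ B0 := Nat.one_le_pow _ _ hB1
  set h := 6 * B0 ^ 2 with hh
  have hpos : 0 < h := by positivity
  obtain ⟨K, hK⟩ : ∃ K : ℕ, 16 ^ K * h < 17 ^ K := by
    obtain ⟨K, hK⟩ := pow_unbounded_of_one_lt (h : ℝ) (show (1:ℝ) < 17 / 16 by norm_num)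
    refine ⟨K, ?_⟩
    rw [div_pow, lt_div_iff₀ (by positivity)] at hK
    have : ((16 ^ K * h : ℕ) : ℝ) < ((17 ^ K : ℕ) : ℝ) := by
      push_cast
      linarith
    exact_mod_cast this
  obtain ⟨V, iV, F, hV, hnb, hsp, hind⟩ := hhost (B ^ (62 * (K + 140) + 64))
  refine ⟨V, iV, F, hV, hind, 3 * Fintype.card V + 1, ?_⟩
  intro s hs
  have hspos : 0 < s := by omega
  have hVs : 3 * Fintype.card V ≤ 2 ^ s := by
    have := Nat.lt_two_pow_self (n := s)
    omega
  set w := s / h with hw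
  obtain ⟨π, hπ, hwild⟩ := exists_good F B0 hB01 (fun x => card_ball hnb x 62) s w
    (by rw [← hh, hw]; exact Nat.mul_div_le s h) hVs hspos
  refine ⟨π, fun φ m hm hadm => ?_⟩
  obtain ⟨h1, hlink, h2, h3⟩ := hadm
  have hnot : ¬ Wild F s w π (fun a => φ a 0) := fun hc => hwild ⟨_, hc⟩
  have hfib : ∃ T : Finset (Fin s), (∀ a ∈ T, ∀ b ∈ T, φ a 0 = φ b 0) ∧ w < T.card := by
    by_contra hno
    push Not at hno
    apply hnot
    refine ⟨?_, fun T hT => hno T hT, ?_⟩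
    · intro a b hab
      have e1 := up_ball h1 a 31 le_rfl (x := φ a 0) (k := 0) (mem_ball_zero.2 rfl)
      have e2 := ball_step e1 (hlink a b hab)
      exact ball_mono (by omega) e2
    · intro l a
      exact ball_mono (by omega) (move h1 h2 l a (x := φ a 0) (k := 0) (mem_ball_zero.2 rfl))
  obtain ⟨T, hT, hTw⟩ := hfib
  have hTne : T.Nonempty := card_pos.1 (lt_of_le_of_lt (Nat.zero_le _) hTw)
  obtain ⟨a0, ha0⟩ := hTne
  have hsT : s ≤ h * T.card := by
    have h5 : s < h * (w + 1) := by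
      rw [hw, mul_comm]
      exact (Nat.div_lt_iff_lt_mul hpos).1 (Nat.lt_succ_self _)
    exact (h5.trans_le (Nat.mul_le_mul_left _ hTw)).le
  exact det F B _ K h s m hnb le_rfl hsp hK hspos hm π hπ φ h1 h2 h3 (φ a0 0) T
    (fun a ha => hT a ha a0 ha0) hsT

end Pool.Agent.EeIns
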