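import Pool.Agent.Lib.MP_eee601_co.Ins.Defs

set_option autoImplicit false

namespace Pool.Agent.EeIns

open Finset

lemma deg2_insert {V : Type} (F : SimpleGraph V) (U N : Finset V) (y : V) [DecidableEq V]
    (hy : y ∉ U) (hN : N ⊆ U) (hadj : ∀ x ∈ N, F.Adj x y) :
    deg2 F U + 2 * N.card ≤ deg2 F (insert y U) := by
  classical
  have h1 : ((U ×ˢ U).filter (fun p => F.Adj p.1 p.2)) ∪
      (N.image (fun x => (x, y)) ∪ N.image (fun x => (y, x))) ⊆
      ((insert y U ×ˢ insert y U).filter (fun p => F.Adj p.1 p.2)) := by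
    intro p hp
    simp only [mem_union, mem_filter, mem_product, mem_image] at hp
    simp only [mem_filter, mem_product, mem_insert]
    rcases hp with h | ⟨x, hx, rfl⟩ | ⟨x, hx, rfl⟩
    · exact ⟨⟨Or.inr h.1.1, Or.inr h.1.2⟩, h.2⟩
    · exact ⟨⟨Or.inr (hN hx), Or.inl rfl⟩, hadj x hx⟩
    · exact ⟨⟨Or.inl rfl, Or.inr (hN hx)⟩, (hadj x hx).symm⟩
  have h2 : Disjoint (N.image (fun x => (x, y))) (N.image (fun x => (y, x))) := by
    rw [Finset.disjoint_left]
    intro p hp hq
    simp only [mem_image] at hp hq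
    obtain ⟨x, hx, rfl⟩ := hp
    obtain ⟨x', hx', h⟩ := hq
    have : y = x := (Prod.mk.inj h).1
    rw [this] at hy
    exact hy (hN hx)
  have h3 : Disjoint ((U ×ˢ U).filter (fun p => F.Adj p.1 p.2))
      (N.image (fun x => (x, y)) ∪ N.image (fun x => (y, x))) := by
    rw [Finset.disjoint_left]
    intro p hp hq
    simp only [mem_filter, mem_product] at hp
    simp only [mem_union, mem_image] at hq
    rcases hq with ⟨x, hx, rfl⟩ | ⟨x, hx, rfl⟩
    · exact hy hp.1.2
    · exact hy hp.1.1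
  have h4 := card_le_card h1
  rw [card_union_of_disjoint h3, card_union_of_disjoint h2,
    card_image_of_injective _ (fun a b h => (Prod.mk.inj h).1),
    card_image_of_injective _ (fun a b h => (Prod.mk.inj h).2)] at h4
  have h5 : deg2 F U = ((U ×ˢ U).filter (fun p => F.Adj p.1 p.2)).card := by
    unfold deg2; congr
  have h6 : deg2 F (insert y U) =
      ((insert y U ×ˢ insert y U).filter (fun p => F.Adj p.1 p.2)).card := by
    unfold deg2; congr
  rw [h5, h6]
  omega

lemma grow {V : Type} (F : SimpleGraph V) (S : Finset V) (hS : S.Nonempty)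
    (hc : ∀ U ⊆ S, U.Nonempty → U ≠ S → ∃ x ∈ U, ∃ y ∈ S, y ∉ U ∧ F.Adj x y) :
    2 * S.card ≤ deg2 F S + 2 := by
  classical
  have key : ∀ k, 1 ≤ k → k ≤ S.card → ∃ U ⊆ S, U.card = k ∧ 2 * k ≤ deg2 F U + 2 := by
    intro k hk
    induction k, hk using Nat.le_induction with
    | base =>
      intro _
      obtain ⟨u, hu⟩ := hS
      exact ⟨{u}, singleton_subset_iff.2 hu, card_singleton u, by omega⟩
    | succ k hk ih =>
      intro hkS
      obtain ⟨U, hU, hUc, hUd⟩ := ih (by omega)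
      have hne : U.Nonempty := card_pos.1 (by omega)
      have hneS : U ≠ S := by
        rintro rfl; omega
      obtain ⟨x, hx, y, hy, hyU, hxy⟩ := hc U hU hne hneS
      refine ⟨insert y U, insert_subset hy hU, by rw [card_insert_of_notMem hyU, hUc], ?_⟩
      have := deg2_insert F U {x} y hyU (singleton_subset_iff.2 hx) (by
        intro a ha; rw [mem_singleton] at ha; rw [ha]; exact hxy)
      rw [card_singleton] at this
      omega
  obtain ⟨U, hU, hUc, hUd⟩ := key S.card (card_pos.2 hS) le_rfl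
  have : U = S := eq_of_subset_of_card_le hU hUc.ge
  rwa [this] at hUd

/-- A vertex which separates a set of weight between one quarter and three quarters. -/
theorem sep {V : Type} (F : SimpleGraph V) (M m : ℕ) (hF : Sparse F M) (T : Finset V)
    (hT : T.card ≤ M) (w : V → ℕ) (hw : ∀ x ∈ T, w x ≤ m) (hW : 2 * m ≤ ∑ x ∈ T, w x)
    (hpos : 0 < ∑ x ∈ T, w x) :
    ∃ z ∈ T, ∃ S ⊆ T, z ∉ S ∧ (∀ x ∈ S, ∀ y ∈ T, F.Adj x y → y ∈ S ∨ y = z) ∧
      ∑ x ∈ T, w x ≤ 4 * ∑ x ∈ S, w x ∧ 4 * ∑ x ∈ S, w x ≤ 3 * ∑ x ∈ T, w x := by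
  classical
  set W := ∑ x ∈ T, w x with hWdef
  set P : V × Finset V → Prop := fun q => q.1 ∈ T ∧ q.2 ⊆ T ∧ q.1 ∉ q.2 ∧
    (∀ x ∈ q.2, ∀ y ∈ T, F.Adj x y → y ∈ q.2 ∨ y = q.1) ∧ W ≤ 4 * ∑ x ∈ q.2, w x with hP
  have hTne : T.Nonempty := by
    by_contra h
    rw [not_nonempty_iff_eq_empty] at h
    rw [hWdef, h, sum_empty] at hpos
    exact absurd hpos (lt_irrefl _)
  obtain ⟨z0, hz0⟩ := hTne
  have hne : ((T ×ˢ T.powerset).filter P).Nonempty := by
    refine ⟨(z0, T.erase z0), ?_⟩
    rw [mem_filter, mem_product, mem_powerset]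
    refine ⟨⟨hz0, erase_subset _ _⟩, hz0, erase_subset _ _, notMem_erase _ _, ?_, ?_⟩
    · intro x _ y hy _
      by_cases h : y = z0
      · exact Or.inr h
      · exact Or.inl (mem_erase.2 ⟨h, hy⟩)
    · have h1 : w z0 + ∑ x ∈ T.erase z0, w x = W := add_sum_erase T w hz0
      have h2 := hw z0 hz0
      change W ≤ 4 * ∑ x ∈ T.erase z0, w x
      omega
  obtain ⟨⟨z, S⟩, hzS, hmin⟩ := exists_min_image _ (fun q : V × Finset V => q.2.card) hne
  rw [mem_filter] at hzS
  obtain ⟨_, hz, hST, hzn, hcl, hWS⟩ := hzS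
  simp only at hz hST hzn hcl hWS
  have hmin' : ∀ z' S', P (z', S') → S.card ≤ S'.card := by
    intro z' S' hp
    refine hmin (z', S') ?_
    rw [mem_filter, mem_product, mem_powerset]
    exact ⟨⟨hp.1, hp.2.1⟩, hp⟩
  refine ⟨z, hz, S, hST, hzn, hcl, hWS, ?_⟩
  by_contra hcon
  push Not at hcon
  have hSne : S.Nonempty := by
    by_contra h
    rw [not_nonempty_iff_eq_empty] at h
    rw [h, sum_empty] at hcon
    omega
  -- S cannot be split
  have hconn : ∀ U ⊆ S, U.Nonempty → U ≠ S → ∃ x ∈ U, ∃ y ∈ S, y ∉ U ∧ F.Adj x y := by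
    intro U hU hUne hUS
    by_contra hno
    push Not at hno
    have hsplit : ∑ x ∈ S \ U, w x + ∑ x ∈ U, w x = ∑ x ∈ S, w x := sum_sdiff hU
    have hUlt : U.card < S.card := card_lt_card (Finset.ssubset_iff_subset_ne.2 ⟨hU, hUS⟩)
    have hDlt : (S \ U).card < S.card := by
      rw [card_sdiff_of_subset hU]
      have := card_pos.2 hUne
      have := card_le_card hU
      omega
    have hclU : ∀ x ∈ U, ∀ y ∈ T, F.Adj x y → y ∈ U ∨ y = z := by
      intro x hx y hy hxy
      rcases hcl x (hU hx) y hy hxy with h | h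
      · by_cases hyU : y ∈ U
        · exact Or.inl hyU
        · exact absurd hxy (hno x hx y h hyU)
      · exact Or.inr h
    have hclD : ∀ x ∈ S \ U, ∀ y ∈ T, F.Adj x y → y ∈ S \ U ∨ y = z := by
      intro x hx y hy hxy
      rw [mem_sdiff] at hx
      rcases hcl x hx.1 y hy hxy with h | h
      · by_cases hyU : y ∈ U
        · exact absurd hxy.symm (hno y hyU x hx.1 hx.2)
        · exact Or.inl (mem_sdiff.2 ⟨h, hyU⟩)
      · exact Or.inr h
    by_cases hbig : W ≤ 4 * ∑ x ∈ U, w x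
    · have := hmin' z U ⟨hz, hU.trans hST, fun h => hzn (hU h), hclU, hbig⟩
      omega
    · have hbig2 : W ≤ 4 * ∑ x ∈ S \ U, w x := by omega
      have := hmin' z (S \ U) ⟨hz, sdiff_subset.trans hST, fun h => hzn (mem_sdiff.1 h).1, hclD, hbig2⟩
      omega
  have hgrow := grow F S hSne hconn
  have hone : ∀ u ∈ S, ∀ v ∈ S, F.Adj u z → F.Adj v z → u = v := by
    intro u hu v hv hu' hv'
    by_contra huv
    have h1 := deg2_insert F S {u, v} z hzn (by
      intro a ha
      simp only [mem_insert, mem_singleton] at ha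
      rcases ha with rfl | rfl
      · exact hu
      · exact hv) (by
      intro a ha
      simp only [mem_insert, mem_singleton] at ha
      rcases ha with rfl | rfl
      · exact hu'
      · exact hv')
    rw [card_pair huv] at h1
    have h2 := hF (insert z S) (insert_nonempty _ _) ((card_le_card (insert_subset hz hST)).trans hT)
    rw [card_insert_of_notMem hzn] at h2
    omega
  -- move the separating vertex
  obtain ⟨u, hu, hu2⟩ : ∃ u ∈ S, ∀ v ∈ S, F.Adj v z → v = u := by
    by_cases h : ∃ u ∈ S, F.Adj u z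
    · obtain ⟨u, hu, hu'⟩ := h
      exact ⟨u, hu, fun v hv hv' => hone v hv u hu hv' hu'⟩
    · push Not at h
      obtain ⟨u, hu⟩ := hSne
      exact ⟨u, hu, fun v hv hv' => absurd hv' (h v hv)⟩
  have hsum : w u + ∑ x ∈ S.erase u, w x = ∑ x ∈ S, w x := add_sum_erase S w hu
  have hwu := hw u (hST hu)
  have := hmin' u (S.erase u) ⟨hST hu, (erase_subset _ _).trans hST, notMem_erase _ _, by
    intro x hx y hy hxy
    simp only at hx ⊢
    rw [mem_erase] at hx
    rcases hcl x hx.2 y hy hxy with h | h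
    · by_cases hyu : y = u
      · exact Or.inr hyu
      · exact Or.inl (mem_erase.2 ⟨hyu, h⟩)
    · rw [h] at hxy
      exact absurd (hu2 x hx.2 hxy) hx.1, by
    simp only
    omega⟩
  rw [card_erase_of_mem hu] at this
  have := card_pos.2 hSne
  omega

end Pool.Agent.EeIns
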